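import Pool.Agent.Helper52.XG.ALG

/-! The locally constant values are algebraic over the iterated `p`-components of the parameters:
the version with a given field of coefficients (adapted from the file of helper52). -/

set_option autoImplicit false

namespace Pool.Agent.Helper38.XF

open MvPolynomial Filter
open Pool.Agent.Helper71.XF.MAIN
open Pool.Agent.Helper52.XG.ALG (pc_spec pcs_append countable_mv)

theorem alg2 (h1 : St_MOVE) (h3 : St_ULT) (h4 : St_LCL) (h5 : St_GEN)
    (h6 : St_ACL) (h7 : St_PCS) : St_ALG2 := by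
  classical
  intro p _ K _ _ _ O t hP hH k0 hk03 hk02 ι κ _ _ E b hk01
  haveI : Countable k0 := hk02.to_subtype
  haveI : Countable (MvPolynomial (Option (ι × List (Fin p))) k0) := countable_mv
  obtain ⟨Qe, hQe⟩ := exists_surjective_nat (MvPolynomial (Option (ι × List (Fin p))) k0)
  have hae : ∀ (x : Option (ι × List (Fin p)) → K) (Q : MvPolynomial (Option (ι × List (Fin p))) k0),
      aeval x Q = eval x (map k0.subtype Q) := by
    intro x Q
    rw [eval_map]
    rfl
  by_contra hcon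
  push Not at hcon
  have hv : ∀ n : ℕ, ∃ v : ι → K, ∃ a ∈ LV O E v b, ∀ j < n,
      (∃ a' : K, eval (asg hP v a') (map k0.subtype (Qe j)) ≠ 0) →
        eval (asg hP v a) (map k0.subtype (Qe j)) ≠ 0 := by
    intro n
    obtain ⟨v, a, ha, hn⟩ := hcon ((Finset.range n).image Qe)
    refine ⟨v, a, ha, fun j hj hex => ?_⟩
    obtain ⟨a', h8⟩ := hex
    rw [← hae] at h8 ⊢
    exact hn _ (Finset.mem_image.2 ⟨j, Finset.mem_range.2 hj, rfl⟩) ⟨a', h8⟩
  choose v a ha hna using hv
  obtain ⟨hchar, hPL, O', hHL, hO'⟩ := h3 p K O t hH hP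
  haveI := hchar
  have : Infinite (UP K) := Infinite.of_injective _ (cH_inj K)
  let vs : ι → UP K := fun i => ((fun n => v n i : ℕ → K) : UP K)
  letI alg : Algebra k0 (UP K) := ((cH K).comp k0.subtype).toAlgebra
  have halg : ∀ x : k0, algebraMap k0 (UP K) x = cH K (x : K) := fun _ => rfl
  let s : ι × List (Fin p) → UP K := fun q => pcs hPL q.2 (vs q.1)
  let S : Set (UP K) := Set.range (algebraMap k0 (UP K)) ∪ Set.range s
  have htS : (t : UP K) ∈ S := Or.inl ⟨⟨t, hk03.1⟩, rfl⟩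
  have hSc : ∀ x ∈ S, ∃ c : Fin p → UP K, (∀ i, c i ∈ S) ∧
      x = ∑ i, c i ^ p * (t : UP K) ^ (i : ℕ) := by
    rintro x (⟨y, rfl⟩ | ⟨⟨i, l⟩, rfl⟩)
    · have e1 := pc_spec hP (y : K)
      have e2 : ∀ i, pc hP i (y : K) ∈ k0 := hk03.2 _ (by rw [← e1]; exact y.2)
      refine ⟨fun i => cH K (pc hP i (y : K)), fun i => Or.inl ⟨⟨_, e2 i⟩, rfl⟩, ?_⟩
      rw [halg]
      conv_lhs => rw [e1]
      rw [map_sum]
      refine Finset.sum_congr rfl fun i _ => ?_
      rw [map_mul, map_pow, map_pow]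
      rfl
    · refine ⟨fun j => pc hPL j (pcs hPL l (vs i)), fun j => Or.inr ⟨(i, l ++ [j]), ?_⟩,
        pc_spec hPL _⟩
      exact pcs_append hPL l j (vs i)
  have hL1 := h5 p (UP K) (t : UP K) hPL S htS hSc
  obtain ⟨k, hk2, hk3, hk4⟩ := h4 p (UP K) (t : UP K) (Subfield.closure S) hPL hL1
  have hSk : ∀ x ∈ S, x ∈ k := by
    intro x hx
    rw [hk2]
    exact isAlgebraic_algebraMap (⟨x, Subfield.subset_closure hx⟩ : Subfield.closure S)
  have hvk : ∀ i, vs i ∈ k := fun i => hSk _ (Or.inr ⟨(i, []), rfl⟩)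
  have hrep : ∀ x : UP K, ∃ f : ℕ → K, (f : UP K) = x := fun x => Quotient.exists_rep x
  choose rp hrp using hrep
  choose w hwa hw e he hiso using ha
  let ws : κ → UP K := fun j => ((fun n => w n j : ℕ → K) : UP K)
  -- values of the polynomials over `k0`
  have hval : ∀ (Q : MvPolynomial (Option (ι × List (Fin p))) k0) (f : ℕ → K),
      (((fun n => eval (asg hP (v n) (f n)) (map k0.subtype Q)) : ℕ → K) : UP K) =
        aeval (fun o : Option (ι × List (Fin p)) => o.elim (f : UP K) s) Q := by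
    intro Q f
    let g : Option (ι × List (Fin p)) → ℕ → K := fun o n => asg hP (v n) (f n) o
    have e1 := germ_eval (map k0.subtype Q) g
    rw [MvPolynomial.eval₂_map] at e1
    refine e1.trans ?_
    rw [MvPolynomial.aeval_def]
    have e2 : (fun o => ((g o : ℕ → K) : UP K)) =
        fun o : Option (ι × List (Fin p)) => o.elim (f : UP K) s := by
      funext o
      rcases o with _ | ⟨i, l⟩
      · rfl
      · exact (h7 p K t hP hPL l (fun n => v n i)).symm
    rw [e2]
    rfl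
  have hwk : ws b ∉ k := by
    intro hmem
    rw [hk2] at hmem
    obtain ⟨Q, ⟨a', hQ1⟩, hQ2⟩ := h6 k0 (UP K) (ι × List (Fin p)) s (ws b) hmem
    obtain ⟨j, rfl⟩ := hQe Q
    obtain ⟨f, rfl⟩ : ∃ f : ℕ → K, (f : UP K) = a' := ⟨_, hrp a'⟩
    rw [← hval] at hQ1
    have e3 := hval (Qe j) (fun n => w n b)
    have e4 : (((fun n => eval (asg hP (v n) (w n b)) (map k0.subtype (Qe j))) : ℕ → K) : UP K) =
        (((0 : ℕ → K) : ℕ → K) : UP K) := e3.trans hQ2
    have e5 : ∀ᶠ n in (hyperfilter ℕ : Filter ℕ),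
        eval (asg hP (v n) (w n b)) (map k0.subtype (Qe j)) = 0 := Filter.Germ.coe_eq.1 e4
    have e6 : ∃ᶠ n in (hyperfilter ℕ : Filter ℕ),
        eval (asg hP (v n) (f n)) (map k0.subtype (Qe j)) ≠ 0 := by
      intro hno
      apply hQ1
      have e8 : ∀ᶠ n in (hyperfilter ℕ : Filter ℕ),
          eval (asg hP (v n) (f n)) (map k0.subtype (Qe j)) = 0 := by
        filter_upwards [hno] with n hn
        exact not_not.1 hn
      exact (Filter.Germ.coe_eq.2 e8 :
        (((fun n => eval (asg hP (v n) (f n)) (map k0.subtype (Qe j))) : ℕ → K) : UP K) =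
        (((0 : ℕ → K) : ℕ → K) : UP K))
    have e7 : ∀ᶠ n in (hyperfilter ℕ : Filter ℕ), j < n :=
      Nat.hyperfilter_le_atTop (eventually_gt_atTop j)
    obtain ⟨n, e9, e10, e11⟩ := (e6.and_eventually (e5.and e7)).exists
    refine hna n j e11 ⟨f n, e9⟩ ?_
    rw [← hwa n]
    exact e10
  let es : UP K := ((e : ℕ → K) : UP K)
  have hes : es ≠ 0 := by
    intro h0
    have h4 : ∀ᶠ n in (hyperfilter ℕ : Filter ℕ), e n = (0 : ℕ → K) n :=
      Filter.Germ.coe_eq.1 (show ((e : ℕ → K) : UP K) = (((0 : ℕ → K) : ℕ → K) : UP K) from h0)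
    obtain ⟨n, hn⟩ := h4.exists
    exact he n hn
  obtain ⟨w', hnear, hne, hpoly⟩ := h1 p (UP K) O' _ k hHL hPL hk3 hk4 κ ws b hwk es hes
  -- equations
  have hG : ∀ F ∈ E, ∀ᶠ n in (hyperfilter ℕ : Filter ℕ),
      eval (Sum.elim (v n) fun j => rp (w' j) n) F = 0 := by
    intro F hF
    have hco : ∀ m, cH K (F.coeff m) ∈ k := by
      intro m
      exact hSk _ (Or.inl ⟨⟨F.coeff m, hk01 F hF m⟩, rfl⟩)
    obtain ⟨G, hG⟩ := poly_k (cH K) k F hco vs hvk
    have h4 : ∀ g : κ → ℕ → K, (((fun n => eval (Sum.elim (v n) fun j => g j n) F) : ℕ → K) : UP K) =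
        aeval (fun j => ((g j : ℕ → K) : UP K)) G := by
      intro g
      rw [hG]
      have h5 := germ_eval F (Sum.elim (fun i n => v n i) g)
      have h6 : (fun n => eval (fun s => (Sum.elim (fun i n => v n i) g : ι ⊕ κ → ℕ → K) s n) F) =
          fun n => eval (Sum.elim (v n) fun j => g j n) F := by
        funext n
        congr 2
        funext s
        rcases s with i | j <;> rfl
      have h7 : (fun s => (((Sum.elim (fun i n => v n i) g : ι ⊕ κ → ℕ → K) s : ℕ → K) : UP K)) =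
          Sum.elim vs fun j => ((g j : ℕ → K) : UP K) := by
        funext s
        rcases s with i | j <;> rfl
      rw [h6, h7] at h5
      exact h5
    have h5 : aeval ws G = 0 := by
      have h6 := h4 fun j n => w n j
      have h7 : (fun n => eval (Sum.elim (v n) fun j => w n j) F) = (0 : ℕ → K) := by
        funext n
        exact hw n F hF
      rw [h7] at h6
      exact h6.symm
    have h6 := hpoly G h5
    have h7 := h4 fun j => rp (w' j)
    have h8 : (fun j => ((rp (w' j) : ℕ → K) : UP K)) = w' := funext fun j => hrp _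
    rw [h8, h6] at h7
    exact Filter.Germ.coe_eq.1 (h7.trans (rfl : (0 : UP K) = (((0 : ℕ → K) : ℕ → K) : UP K)))
  -- nearness
  have hN : ∀ j, ∀ᶠ n in (hyperfilter ℕ : Filter ℕ), Near O (e n) (rp (w' j) n) (w n j) := by
    intro j
    obtain ⟨z, hz, h4⟩ := hnear j
    obtain ⟨z0, rfl⟩ : ∃ z0 : ℕ → K, (z0 : UP K) = z := ⟨_, hrp z⟩
    rw [← hrp (w' j)] at h4
    have h5 : (((rp (w' j) - fun n => w n j : ℕ → K)) : UP K) = ((e * z0 : ℕ → K) : UP K) := h4
    filter_upwards [(hO' z0).1 hz, Filter.Germ.coe_eq.1 h5] with n h6 h7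
    exact ⟨z0 n, h6, h7⟩
  have hall := (E.eventually_all.2 hG).and (Filter.eventually_all.2 hN)
  apply hne
  rw [← hrp (w' b)]
  refine Filter.Germ.coe_eq.2 ?_
  filter_upwards [hall] with n hn
  rw [hiso n _ hn.1 hn.2, hwa n]

end Pool.Agent.Helper38.XF
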