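import Pool.Agent.Helper38.XF.Tools

/-!
Existential formulas over `F_p((t))`: algebraicity over the iterated `p`-components of the
parameters. Statements of the parts.
-/

set_option autoImplicit false

namespace Pool.Agent.Helper38.XF

open Polynomial

/-- The `p`-components `c i` of `x`: `x = ∑ c i ^ p * t ^ i`. -/
noncomputable def pc {p : ℕ} {L : Type} [Field L] {t : L} (h : PBas p L t) (i : Fin p) (x : L) : L :=
  (h.1 x).choose i

/-- The iterated `p`-components of `x`. -/
noncomputable def pcs {p : ℕ} {L : Type} [Field L] {t : L} (h : PBas p L t) :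
    List (Fin p) → L → L
  | [], x => x
  | i :: l, x => pcs h l (pc h i x)

/-- The assignment with the iterated `p`-components of the parameters `v` and one further
element `a`. -/
noncomputable def asg {p : ℕ} {L : Type} [Field L] {t : L} (h : PBas p L t) {ι : Type} (v : ι → L)
    (a : L) : Option (ι × List (Fin p)) → L
  | none => a
  | some (i, l) => pcs h l (v i)

/-- LCL (from POW): the relative algebraic closure of a subfield which contains the `p`-components
of its elements has this property too. -/
def St_LCL : Prop :=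
  ∀ (p : ℕ) [Fact p.Prime] (L : Type) [Field L] [CharP L p] (t : L) (k : Subfield L),
    PBas p L t → LamClosed p t k →
    ∃ k' : Subfield L, (∀ x, x ∈ k' ↔ IsAlgebraic k x) ∧ LamClosed p t k' ∧ AlgClosedIn k'

/-- GEN: the subfield generated by a set which contains the `p`-components of its elements. -/
def St_GEN : Prop :=
  ∀ (p : ℕ) [Fact p.Prime] (L : Type) [Field L] [CharP L p] (t : L), PBas p L t →
    ∀ S : Set L, t ∈ S → (∀ x ∈ S, ∃ c : Fin p → L, (∀ i, c i ∈ S) ∧
      x = ∑ i, c i ^ p * t ^ (i : ℕ)) → LamClosed p t (Subfield.closure S)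

/-- ACL: polynomials for elements which are algebraic over a generated subfield. -/
def St_ACL : Prop :=
  ∀ (k L : Type) [Field k] [Field L] [Infinite L] [Algebra k L] (σ : Type) (s : σ → L) (a : L),
    IsAlgebraic (Subfield.closure (Set.range (algebraMap k L) ∪ Set.range s)) a →
    ∃ Q : MvPolynomial (Option σ) k,
      (∃ a' : L, MvPolynomial.aeval (fun o : Option σ => o.elim a' s) Q ≠ 0) ∧
        MvPolynomial.aeval (fun o : Option σ => o.elim a s) Q = 0

/-- PCS: iterated `p`-components in the ultrapower. -/
def St_PCS : Prop :=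
  ∀ (p : ℕ) [Fact p.Prime] (K : Type) [Field K] [CharP K p] (t : K) (h : PBas p K t)
    (h' : PBas p (UP K) (t : UP K)) (l : List (Fin p)) (f : ℕ → K),
    pcs h' l (f : UP K) = ((fun n => pcs h l (f n) : ℕ → K) : UP K)

/-- ALG (from MOVE CLO ULT LCL GEN ACL PCS): the locally constant values are algebraic over the
iterated `p`-components of the parameters, uniformly. -/
def St_ALG : Prop :=
  ∀ (p : ℕ) [Fact p.Prime] (K : Type) [Field K] [CharP K p] [Infinite K] (O : ValuationSubring K)
    (t : K) (h : PBas p K t), Hens O →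
    ∀ (ι κ : Type) [Finite ι] [Finite κ] (E : Finset (MvPolynomial (ι ⊕ κ) K)) (b : κ),
      ∃ Qs : Finset (MvPolynomial (Option (ι × List (Fin p))) K), ∀ v : ι → K,
        ∀ a ∈ LV O E v b, ∃ Q ∈ Qs, (∃ a' : K, MvPolynomial.eval (asg h v a') Q ≠ 0) ∧
          MvPolynomial.eval (asg h v a) Q = 0

/-- ALG2 (from MOVE ULT LCL GEN ACL PCS; this version is the one that is needed): the coefficients
of the equations and of the polynomials `Q` are in a given countable subfield `k` which contains `t`
and the `p`-components of its elements. -/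
def St_ALG2 : Prop :=
  ∀ (p : ℕ) [Fact p.Prime] (K : Type) [Field K] [CharP K p] [Infinite K] (O : ValuationSubring K)
    (t : K) (h : PBas p K t), Hens O → ∀ k : Subfield K, LamClosed p t k → (k : Set K).Countable →
    ∀ (ι κ : Type) [Finite ι] [Finite κ] (E : Finset (MvPolynomial (ι ⊕ κ) K)) (b : κ),
      (∀ F ∈ E, ∀ m, F.coeff m ∈ k) →
      ∃ Qs : Finset (MvPolynomial (Option (ι × List (Fin p))) k), ∀ v : ι → K,
        ∀ a ∈ LV O E v b, ∃ Q ∈ Qs, (∃ a' : K, MvPolynomial.aeval (asg h v a') Q ≠ 0) ∧
          MvPolynomial.aeval (asg h v a) Q = 0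

end Pool.Agent.Helper38.XF
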