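import Pool.Agent.Helper38.XF.Fin4
import Pool.Agent.Helper38.XF.Spec2

/-!
Existential formulas over `F_p((t))`: integral coefficients.
-/

set_option autoImplicit false

namespace Pool.Agent.Helper38.XF

open Pool.Agent.Y924.EL Function
open MvPolynomial (X)
open Pool.Agent.Results.MP_db9079_lc.UniformFiniteness (ValRing Scattered Discr ClosedSet Dfn)
open Pool.Agent.Results.MP_db9079_lc.LocallyFiniteValues (DRel DSet LFV LFTame Iso)

/-- the polynomial has integral coefficients -/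
def Ic {K : Type} [Field K] {σ : Type} (F : MvPolynomial σ K) : Prop :=
  ∃ G : MvPolynomial σ ℤ, MvPolynomial.map (Int.castRingHom K) G = F

/-- all polynomials in the list have integral coefficients -/
def IcD {K : Type} [Field K] {σ : Type} (D : List (List (Fin 4 × MvPolynomial σ K))) : Prop :=
  ∀ c ∈ D, ∀ l ∈ c, Ic l.2

theorem Ic.coeff_mem {K : Type} [Field K] {σ : Type} {F : MvPolynomial σ K} (h : Ic F)
    (k : Subfield K) (m : σ →₀ ℕ) : F.coeff m ∈ k := by
  obtain ⟨G, rfl⟩ := h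
  rw [MvPolynomial.coeff_map, eq_intCast]
  exact intCast_mem k _

theorem Ic.rename {K : Type} [Field K] {σ τ : Type} {F : MvPolynomial σ K} (h : Ic F) (r : σ → τ) :
    Ic (MvPolynomial.rename r F) := by
  obtain ⟨G, rfl⟩ := h
  exact ⟨MvPolynomial.rename r G, by rw [MvPolynomial.map_rename]⟩

theorem Ic.X {K : Type} [Field K] {σ : Type} (i : σ) : Ic (MvPolynomial.X i : MvPolynomial σ K) :=
  ⟨MvPolynomial.X i, by simp⟩

theorem Ic.one {K : Type} [Field K] {σ : Type} : Ic (1 : MvPolynomial σ K) := ⟨1, by simp⟩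

theorem Ic.add {K : Type} [Field K] {σ : Type} {F G : MvPolynomial σ K} (h : Ic F) (h' : Ic G) :
    Ic (F + G) := by
  obtain ⟨A, rfl⟩ := h
  obtain ⟨B, rfl⟩ := h'
  exact ⟨A + B, by simp⟩

theorem Ic.sub {K : Type} [Field K] {σ : Type} {F G : MvPolynomial σ K} (h : Ic F) (h' : Ic G) :
    Ic (F - G) := by
  obtain ⟨A, rfl⟩ := h
  obtain ⟨B, rfl⟩ := h'
  exact ⟨A - B, by simp⟩

theorem Ic.mul {K : Type} [Field K] {σ : Type} {F G : MvPolynomial σ K} (h : Ic F) (h' : Ic G) :
    Ic (F * G) := by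
  obtain ⟨A, rfl⟩ := h
  obtain ⟨B, rfl⟩ := h'
  exact ⟨A * B, by simp⟩

theorem IcD.single {K : Type} [Field K] {σ : Type} {k : Fin 4} {F : MvPolynomial σ K} (h : Ic F) :
    IcD [[(k, F)]] := by
  intro c hc l hl
  rw [List.mem_singleton] at hc
  subst hc
  rw [List.mem_singleton] at hl
  subst hl
  exact h

theorem IcD.rn {K : Type} [Field K] {σ τ : Type} {D : List (List (Fin 4 × MvPolynomial σ K))}
    (h : IcD D) (r : σ → τ) : IcD (rnD r D) := by
  intro c hc l hl
  obtain ⟨c', hc', rfl⟩ := List.mem_map.1 hc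
  obtain ⟨l', hl', rfl⟩ := List.mem_map.1 hl
  exact (h c' hc' l' hl').rename r

theorem IcD.andD {K : Type} [Field K] {σ : Type} {D D' : List (List (Fin 4 × MvPolynomial σ K))}
    (h : IcD D) (h' : IcD D') : IcD (Pool.Agent.Helper38.XF.andD D D') := by
  intro c hc l hl
  obtain ⟨c1, hc1, hc⟩ := List.mem_flatMap.1 hc
  obtain ⟨c2, hc2, rfl⟩ := List.mem_map.1 hc
  rcases List.mem_append.1 hl with hl | hl
  · exact h c1 hc1 l hl
  · exact h' c2 hc2 l hl

theorem IcD.append {K : Type} [Field K] {σ : Type} {D D' : List (List (Fin 4 × MvPolynomial σ K))}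
    (h : IcD D) (h' : IcD D') : IcD (D ++ D') := by
  intro c hc l hl
  rcases List.mem_append.1 hc with hc | hc
  · exact h c hc l hl
  · exact h' c hc l hl

section

variable {K : Type} [Field K]

theorem expr_int (O : Set K) (φ : Fm) : ∀ b, Pol b φ → ∃ D, Expr O b φ D ∧ IcD D := by
  induction φ with
  | eq i j =>
    rintro (_ | _) -
    · refine ⟨_, expr_single O _ _ (1, X (.inl i) - X (.inl j)) fun x z => ?_,
        IcD.single ((Ic.X _).sub (Ic.X _))⟩
      simp [Sat, Lit, sub_eq_zero]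
    · refine ⟨_, expr_single O _ _ (0, X (.inl i) - X (.inl j)) fun x z => ?_,
        IcD.single ((Ic.X _).sub (Ic.X _))⟩
      simp [Sat, Lit, sub_eq_zero]
  | one i =>
    rintro (_ | _) -
    · refine ⟨_, expr_single O _ _ (1, X (.inl i) - 1) fun x z => ?_,
        IcD.single ((Ic.X _).sub Ic.one)⟩
      simp [Sat, Lit, sub_eq_zero]
    · refine ⟨_, expr_single O _ _ (0, X (.inl i) - 1) fun x z => ?_,
        IcD.single ((Ic.X _).sub Ic.one)⟩
      simp [Sat, Lit, sub_eq_zero]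
  | add i j k =>
    rintro (_ | _) -
    · refine ⟨_, expr_single O _ _ (1, X (.inl i) + X (.inl j) - X (.inl k)) fun x z => ?_,
        IcD.single (((Ic.X _).add (Ic.X _)).sub (Ic.X _))⟩
      simp [Sat, Lit, sub_eq_zero]
    · refine ⟨_, expr_single O _ _ (0, X (.inl i) + X (.inl j) - X (.inl k)) fun x z => ?_,
        IcD.single (((Ic.X _).add (Ic.X _)).sub (Ic.X _))⟩
      simp [Sat, Lit, sub_eq_zero]
  | mul i j k =>
    rintro (_ | _) -
    · refine ⟨_, expr_single O _ _ (1, X (.inl i) * X (.inl j) - X (.inl k)) fun x z => ?_,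
        IcD.single (((Ic.X _).mul (Ic.X _)).sub (Ic.X _))⟩
      simp [Sat, Lit, sub_eq_zero]
    · refine ⟨_, expr_single O _ _ (0, X (.inl i) * X (.inl j) - X (.inl k)) fun x z => ?_,
        IcD.single (((Ic.X _).mul (Ic.X _)).sub (Ic.X _))⟩
      simp [Sat, Lit, sub_eq_zero]
  | val i =>
    rintro (_ | _) -
    · refine ⟨_, expr_single O _ _ (3, X (.inl i)) fun x z => ?_,
        IcD.single (Ic.X _)⟩
      simp [Sat, Lit]
    · refine ⟨_, expr_single O _ _ (2, X (.inl i)) fun x z => ?_,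
        IcD.single (Ic.X _)⟩
      simp [Sat, Lit]
  | neg φ ih =>
    intro b hb
    obtain ⟨D, hD, hI⟩ := ih _ hb
    refine ⟨D, fun x => ?_, hI⟩
    rw [← hD x]
    cases b <;> simp [Sat]
  | and φ ψ ih1 ih2 =>
    rintro b ⟨h1, h2⟩
    obtain ⟨D, hD, hI⟩ := ih1 _ h1
    obtain ⟨D', hD', hI'⟩ := ih2 _ h2
    cases b
    · refine ⟨D ++ D', fun x => ?_, hI.append hI'⟩
      have e1 := hD x
      have e2 := hD' x
      simp only [Bool.false_eq_true, if_false] at e1 e2 ⊢
      simp only [Sat, not_and_or, e1, e2, dj_append, exists_or]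
    · refine ⟨andD (rnD (Sum.map id fun j => 2 * j) D) (rnD (Sum.map id fun j => 2 * j + 1) D'),
        fun x => ?_, (hI.rn _).andD (hI'.rn _)⟩
      have e1 := hD x
      have e2 := hD' x
      simp only [if_true] at e1 e2 ⊢
      simp only [Sat, e1, e2, dj_andD, dj_rnD]
      constructor
      · rintro ⟨⟨z, hz⟩, ⟨z', hz'⟩⟩
        refine ⟨fun j => if j % 2 = 0 then z (j / 2) else z' (j / 2), ?_, ?_⟩
        · convert hz using 1
          funext i
          rcases i with i | j
          · rfl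
          · simp
        · convert hz' using 1
          funext i
          rcases i with i | j
          · rfl
          · have : (2 * j + 1) / 2 = j := by omega
            simp [this]
      · rintro ⟨z, h, h'⟩
        refine ⟨⟨z ∘ fun j => 2 * j, ?_⟩, ⟨z ∘ fun j => 2 * j + 1, ?_⟩⟩
        · convert h using 1
          funext i
          rcases i with i | j <;> rfl
        · convert h' using 1
          funext i
          rcases i with i | j <;> rfl
  | ex i φ ih =>
    rintro b ⟨rfl, hb⟩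
    obtain ⟨D, hD, hI⟩ := ih _ hb
    let r : ℕ ⊕ ℕ → ℕ ⊕ ℕ := Sum.elim (fun k => if k = i then .inr 0 else .inl k)
      fun j => .inr (j + 1)
    refine ⟨rnD r D, fun x => ?_, hI.rn _⟩
    simp only [if_true, Sat, dj_rnD]
    have key : ∀ (a : K) (z : ℕ → K),
        (Sum.elim x (fun j => Nat.casesOn j a z)) ∘ r = Sum.elim (update x i a) z := by
      intro a z
      funext k
      rcases k with k | j
      · by_cases hk : k = i
        · subst hk
          simp [r]
        · simp [r, hk]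
      · simp [r]
    constructor
    · rintro ⟨a, ha⟩
      have e1 := hD (update x i a)
      simp only [if_true] at e1
      obtain ⟨z, hz⟩ := e1.1 ha
      exact ⟨fun j => Nat.casesOn j a z, by rw [key]; exact hz⟩
    · rintro ⟨z, hz⟩
      have e1 := hD (update x i (z 0))
      simp only [if_true] at e1
      refine ⟨z 0, e1.2 ⟨fun j => z (j + 1), ?_⟩⟩
      rw [← key]
      convert hz using 2
      congr 1
      funext j
      cases j <;> rfl

end

variable {p : ℕ} [Fact p.Prime]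

theorem liv_sub (φ : Fm) (hφ : Pol true φ) (n m : ℕ) :
    ∃ (B : ℕ) (Es : Finset (Finset (MvPolynomial (Fin (B + 1) ⊕ (Fin (n + m) ⊕ Fin (B + 1)))
      (LaurentSeries (ZMod p))))), (∀ E ∈ Es, ∀ F ∈ E, Ic F) ∧ ∀ v : ℕ → LaurentSeries (ZMod p),
      ∀ y ∈ LIV p (DRel p (ValRing p) φ n m v), ∀ j, ∃ E ∈ Es,
        y j ∈ LV (VO p) E (fun i : Fin (B + 1) => v i) (.inl (Fin.natAdd n j)) := by
  classical
  have hC : St_CONT := Pool.Agent.Helper85.XF.CONT.main
  obtain ⟨D, hD, hI⟩ := expr_int (ValRing p) φ true hφ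
  obtain ⟨B, hB'⟩ := exists_bound D
  let E : List (Fin 4 × Po (LaurentSeries (ZMod p))) →
      Finset (MvPolynomial (Fin (B + 1) ⊕ (Fin (n + m) ⊕ Fin (B + 1))) (LaurentSeries (ZMod p))) :=
    fun c => ((c.filter fun l => l.1 = 0).map fun l =>
      MvPolynomial.rename (rr (n + m) B) l.2).toFinset
  have hE : ∀ c, ∀ l ∈ c, l.1 = 0 → MvPolynomial.rename (rr (n + m) B) l.2 ∈ E c := by
    intro c l hl h0
    simp only [E, List.mem_toFinset, List.mem_map, List.mem_filter, decide_eq_true_eq]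
    exact ⟨l, ⟨hl, h0⟩, rfl⟩
  have hE' : ∀ c, ∀ F ∈ E c, ∃ l ∈ c, l.1 = 0 ∧ MvPolynomial.rename (rr (n + m) B) l.2 = F := by
    intro c F hF
    simp only [E, List.mem_toFinset, List.mem_map, List.mem_filter, decide_eq_true_eq] at hF
    obtain ⟨l, ⟨h1, h2⟩, h3⟩ := hF
    exact ⟨l, h1, h2, h3⟩
  refine ⟨B, D.toFinset.image E, ?_, fun v => ?_⟩
  · intro E' hE1 F hF
    obtain ⟨c, hc, rfl⟩ := Finset.mem_image.1 hE1
    obtain ⟨l, hl, -, rfl⟩ := hE' c F hF
    exact (hI c (List.mem_toFinset.1 hc) l hl).rename _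
  rintro y ⟨x, hxy, b, hb, hloc⟩ j
  -- the point
  have h1 := (hD (fun i => if h : i < n then x ⟨i, h⟩ else
    if h' : i - n < m then y ⟨i - n, h'⟩ else v i)).1 hxy
  obtain ⟨z, c, hc, hz⟩ := h1
  let w : Fin (n + m) ⊕ Fin (B + 1) → LaurentSeries (ZMod p) :=
    Sum.elim (fun i => if h : (i : ℕ) < n then x ⟨i, h⟩ else
      if h' : (i : ℕ) - n < m then y ⟨i - n, h'⟩ else 0) fun j => z j
  -- the translation at a point `w'`
  let x' : (Fin (n + m) ⊕ Fin (B + 1) → LaurentSeries (ZMod p)) → Fin n → LaurentSeries (ZMod p) :=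
    fun w' i => w' (.inl (Fin.castAdd m i))
  let y' : (Fin (n + m) ⊕ Fin (B + 1) → LaurentSeries (ZMod p)) → Fin m → LaurentSeries (ZMod p) :=
    fun w' i => w' (.inl (Fin.natAdd n i))
  have hasg : ∀ w' : Fin (n + m) ⊕ Fin (B + 1) → LaurentSeries (ZMod p),
      (fun i : ℕ => if h : i < n + m then w' (.inl ⟨i, h⟩) else v i) =
      fun i => if h : i < n then x' w' ⟨i, h⟩ else
        if h' : i - n < m then y' w' ⟨i - n, h'⟩ else v i := by
    intro w'
    funext i
    by_cases h : i < n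
    · rw [dif_pos h, dif_pos (by omega)]
      rfl
    · rw [dif_neg h]
      by_cases h' : i - n < m
      · rw [dif_pos h', dif_pos (by omega)]
        simp only [y']
        congr 2
        ext
        simp only [Fin.natAdd_mk]
        omega
      · rw [dif_neg h', dif_neg (by omega)]
  have htr : ∀ w' : Fin (n + m) ⊕ Fin (B + 1) → LaurentSeries (ZMod p),
      (∀ l ∈ c, Lit (ValRing p) (Sum.elim (fun i : Fin (B + 1) => v i) w')
        (l.1, MvPolynomial.rename (rr (n + m) B) l.2)) →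
      DRel p (ValRing p) φ n m v (x' w') (y' w') := by
    intro w' hw'
    refine (hD _).2 ⟨fun j : ℕ => w' (.inr ⟨min j B, by omega⟩), c, hc, fun l hl => ?_⟩
    refine (lit_rr (ValRing p) (n + m) B l (hB' c hc l hl) v _ _ w' (fun i _ => ?_)
      fun j hj => ?_).1 (hw' l hl)
    · exact (congrFun (hasg w') i).symm
    · simp only [min_eq_left hj]
  have hxw : x' w = x := by
    funext i
    simp only [x', w, Sum.elim_inl, Fin.val_castAdd, i.2, dif_pos]
  have hyw : y' w = y := by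
    funext i
    have h2 : ¬ (n + (i : ℕ) < n) := by omega
    have h3 : n + (i : ℕ) - n < m := by have := i.2; omega
    simp only [y', w, Sum.elim_inl, Fin.val_natAdd, h2, dif_neg, not_false_eq_true, h3, dif_pos]
    congr 1
    ext
    simp
  -- the conditions hold at the point
  have hlw : ∀ l ∈ c, Lit (ValRing p) (Sum.elim (fun i : Fin (B + 1) => v i) w)
      (l.1, MvPolynomial.rename (rr (n + m) B) l.2) := by
    intro l hl
    refine (lit_rr (ValRing p) (n + m) B l (hB' c hc l hl) v _ _ w (fun i _ => ?_)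
      fun j hj => ?_).2 (hz l hl)
    · have h2 := congrFun (hasg w) i
      rw [h2, hxw, hyw]
    · simp only [w, Sum.elim_inr]
  -- open conditions
  have hop : ∀ l : Fin 4 × Po (LaurentSeries (ZMod p)), ∃ δ : LaurentSeries (ZMod p), δ ≠ 0 ∧
      (l ∈ c → l.1 ≠ 0 → ∀ w', (∀ j, Near (VO p) δ (w' j) (w j)) →
        Lit (ValRing p) (Sum.elim (fun i : Fin (B + 1) => v i) w')
          (l.1, MvPolynomial.rename (rr (n + m) B) l.2)) := by
    intro l
    by_cases h : l ∈ c ∧ l.1 ≠ 0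
    · obtain ⟨δ, hδ, h2⟩ := lit_open hC (Sum.elim (fun i : Fin (B + 1) => v i) w)
        (l.1, MvPolynomial.rename (rr (n + m) B) l.2) (hlw l h.1) h.2
      refine ⟨δ, hδ, fun _ _ w' hw' => h2 _ fun j => ?_⟩
      rcases j with j | j
      · exact Near.refl _ _
      · exact hw' j
    · exact ⟨1, one_ne_zero, fun h3 h4 => absurd ⟨h3, h4⟩ h⟩
  choose δ hδ hδ' using hop
  obtain ⟨e, he, hcom⟩ := exists_common (O := VO p) (insert b (c.toFinset.image δ)) id
    (fun d hd => by
      rcases Finset.mem_insert.1 hd with rfl | hd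
      · exact hb
      · obtain ⟨l, -, rfl⟩ := Finset.mem_image.1 hd
        exact hδ l)
  refine ⟨E c, Finset.mem_image_of_mem _ (List.mem_toFinset.2 hc), w, congrFun hyw j,
    fun F hF => ?_, e, he, fun w' hw' hn => ?_⟩
  · obtain ⟨l, hl, h0, rfl⟩ := hE' c F hF
    have h2 := hlw l hl
    simpa [Lit, h0] using h2
  · have h2 : DRel p (ValRing p) φ n m v (x' w') (y' w') := by
      refine htr w' fun l hl => ?_
      by_cases h0 : l.1 = 0
      · have h3 := hw' _ (hE c l hl h0)
        simpa [Lit, h0] using h3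
      · exact hδ' l hl h0 w' fun j => hcom (δ l) (Finset.mem_insert_of_mem
          (Finset.mem_image_of_mem _ (List.mem_toFinset.2 hl))) _ _ (hn j)
    have h3 := hloc (x' w') (y' w') h2 (fun i => (near_iff' _ _ _).1 ?_)
      (fun i => (near_iff' _ _ _).1 ?_)
    · exact congrFun h3 j
    · rw [← hxw]
      exact hcom b (Finset.mem_insert_self _ _) _ _ (hn _)
    · rw [← hyw]
      exact hcom b (Finset.mem_insert_self _ _) _ _ (hn _)

theorem cou_sub (φ : Fm) (hφ : Pol true φ) (n : ℕ) :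
    ∃ (B : ℕ) (Es : Finset (Finset (MvPolynomial (Fin (B + 1) ⊕ (Fin n ⊕ Fin (B + 1)))
      (LaurentSeries (ZMod p))))), (∀ E ∈ Es, ∀ F ∈ E, Ic F) ∧ ∀ v : ℕ → LaurentSeries (ZMod p),
      (DSet p (ValRing p) φ n v).Countable → ∀ y ∈ DSet p (ValRing p) φ n v, ∀ j, ∃ E ∈ Es,
        y j ∈ LV (VO p) E (fun i : Fin (B + 1) => v i) (.inl j) := by
  classical
  have hC : St_CONT := Pool.Agent.Helper85.XF.CONT.main
  have hM : St_MAIN := t_MAIN
  have hH : St_HEN := Pool.Agent.Helper89.XF.HEN.main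
  have hB : St_PB := Pool.Agent.Helper68.XF.main
  obtain ⟨D, hD, hI⟩ := expr_int (ValRing p) φ true hφ
  obtain ⟨B, hB'⟩ := exists_bound D
  have := laurent_infinite (p := p)
  let E : List (Fin 4 × Po (LaurentSeries (ZMod p))) →
      Finset (MvPolynomial (Fin (B + 1) ⊕ (Fin n ⊕ Fin (B + 1))) (LaurentSeries (ZMod p))) :=
    fun c => ((c.filter fun l => l.1 = 0).map fun l =>
      MvPolynomial.rename (rr n B) l.2).toFinset
  have hE : ∀ c, ∀ l ∈ c, l.1 = 0 → MvPolynomial.rename (rr n B) l.2 ∈ E c := by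
    intro c l hl h0
    simp only [E, List.mem_toFinset, List.mem_map, List.mem_filter, decide_eq_true_eq]
    exact ⟨l, ⟨hl, h0⟩, rfl⟩
  have hE' : ∀ c, ∀ F ∈ E c, ∃ l ∈ c, l.1 = 0 ∧ MvPolynomial.rename (rr n B) l.2 = F := by
    intro c F hF
    simp only [E, List.mem_toFinset, List.mem_map, List.mem_filter, decide_eq_true_eq] at hF
    obtain ⟨l, ⟨h1, h2⟩, h3⟩ := hF
    exact ⟨l, h1, h2, h3⟩
  choose M hM using fun (c : List (Fin 4 × Po (LaurentSeries (ZMod p)))) (j : Fin n) =>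
    hM p (LaurentSeries (ZMod p)) (VO p) (HahnSeries.single 1 1) (hH p (VO p) (mem_VO p)) (hB p)
      (Fin (B + 1)) (Fin n ⊕ Fin (B + 1)) (E c) (.inl j)
  refine ⟨B, D.toFinset.image E, ?_, fun v hcount => ?_⟩
  · intro E' hE1 F hF
    obtain ⟨c, hc, rfl⟩ := Finset.mem_image.1 hE1
    obtain ⟨l, hl, -, rfl⟩ := hE' c F hF
    exact (hI c (List.mem_toFinset.1 hc) l hl).rename _
  intro y hy j
  obtain ⟨z, c, hc, hz⟩ := (hD _).1 hy
  -- the conditions
  let V : (Fin n ⊕ Fin (B + 1) → LaurentSeries (ZMod p)) → Prop := fun w' =>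
    ∀ l ∈ c, Lit (ValRing p) (Sum.elim (fun i : Fin (B + 1) => v i) w')
      (l.1, MvPolynomial.rename (rr n B) l.2)
  let fs : Fin n ⊕ Fin (B + 1) ≃ Fin (n + (B + 1)) := finSumFinEquiv
  let R : (Fin (n + (B + 1)) → LaurentSeries (ZMod p)) → (Fin n → LaurentSeries (ZMod p)) → Prop :=
    fun u y' => V (u ∘ fs) ∧ y' = fun i => u (fs (.inl i))
  have himg : ∀ w', V w' → (fun i => w' (.inl i)) ∈ DSet p (ValRing p) φ n v := by
    intro w' hw'
    refine (hD _).2 ⟨fun j : ℕ => w' (.inr ⟨min j B, by omega⟩), c, hc, fun l hl => ?_⟩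
    refine (lit_rr (ValRing p) n B l (hB' c hc l hl) v _ _ w' (fun i _ => rfl)
      fun j hj => ?_).1 (hw' l hl)
    simp only [min_eq_left hj]
  -- the open conditions
  have hop : ∀ w : Fin n ⊕ Fin (B + 1) → LaurentSeries (ZMod p), V w →
      ∃ e : LaurentSeries (ZMod p), e ≠ 0 ∧ ∀ w', (∀ j, Near (VO p) e (w' j) (w j)) →
        ∀ l ∈ c, l.1 ≠ 0 → Lit (ValRing p) (Sum.elim (fun i : Fin (B + 1) => v i) w')
          (l.1, MvPolynomial.rename (rr n B) l.2) := by
    intro w hw
    have hop : ∀ l : Fin 4 × Po (LaurentSeries (ZMod p)), ∃ δ : LaurentSeries (ZMod p), δ ≠ 0 ∧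
        (l ∈ c → l.1 ≠ 0 → ∀ w', (∀ j, Near (VO p) δ (w' j) (w j)) →
          Lit (ValRing p) (Sum.elim (fun i : Fin (B + 1) => v i) w')
            (l.1, MvPolynomial.rename (rr n B) l.2)) := by
      intro l
      by_cases h : l ∈ c ∧ l.1 ≠ 0
      · obtain ⟨δ, hδ, h2⟩ := lit_open hC (Sum.elim (fun i : Fin (B + 1) => v i) w)
          (l.1, MvPolynomial.rename (rr n B) l.2) (hw l h.1) h.2
        refine ⟨δ, hδ, fun _ _ w' hw' => h2 _ fun j => ?_⟩
        rcases j with j | j
        · exact Near.refl _ _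
        · exact hw' j
      · exact ⟨1, one_ne_zero, fun h3 h4 => absurd ⟨h3, h4⟩ h⟩
    choose δ hδ hδ' using hop
    obtain ⟨e, he, hcom⟩ := exists_common (O := VO p) (c.toFinset.image δ) id
      (fun d hd => by
        obtain ⟨l, -, rfl⟩ := Finset.mem_image.1 hd
        exact hδ l)
    exact ⟨e, he, fun w' hw' l hl h0 => hδ' l hl h0 w' fun j => hcom (δ l)
      (Finset.mem_image_of_mem _ (List.mem_toFinset.2 hl)) _ _ (hw' j)⟩
  -- locally constant values
  have hsub : ∀ y' ∈ Pool.Agent.R794.FP.LCVn R, ∀ j : Fin n,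
      y' j ∈ LV (VO p) (E c) (fun i : Fin (B + 1) => v i) (.inl j) := by
    rintro y' ⟨u, ⟨hV, hy'⟩, b, hb, h⟩ j
    obtain ⟨e, he, h1⟩ := hop _ hV
    obtain ⟨e', he', hcom⟩ := exists_common (O := VO p) {b, e} id (fun d hd => by
      rcases Finset.mem_insert.1 hd with rfl | hd
      · exact hb
      · rw [Finset.mem_singleton.1 hd]
        exact he)
    refine ⟨u ∘ fs, (congrFun hy' j).symm, fun F hF => ?_, e', he', fun w' hw' hn => ?_⟩
    · obtain ⟨l, hl, h0, rfl⟩ := hE' c F hF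
      have h2 := hV l hl
      simpa [Lit, h0] using h2
    · have h2 : V w' := by
        intro l hl
        by_cases h0 : l.1 = 0
        · have h3 := hw' _ (hE c l hl h0)
          simpa [Lit, h0] using h3
        · exact h1 w' (fun j => hcom e (by simp) _ _ (hn j)) l hl h0
      have h3 := h (w' ∘ fs.symm) (fun i => w' (.inl i)) ⟨?_, ?_⟩
        ((fpnear_iff _ _ _).2 fun i => ?_)
      · exact congrFun h3 j
      · have : (w' ∘ fs.symm) ∘ fs = w' := by
          funext i
          simp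
        rw [this]
        exact h2
      · funext i
        simp
      · have h4 := hcom b (by simp) _ _ (hn (fs.symm i))
        simpa using h4
  have hlfin : (Pool.Agent.R794.FP.LCVn R).Finite :=
    (ncard_pi _ _ _ (fun j => hM c j fun i => v i) hsub).1
  -- Baire
  let w0 : Fin n ⊕ Fin (B + 1) → LaurentSeries (ZMod p) := Sum.elim y fun j => z j
  have hw0 : V w0 := by
    intro l hl
    refine (lit_rr (ValRing p) n B l (hB' c hc l hl) v _ _ w0 (fun i _ => ?_)
      fun j hj => ?_).2 (hz l hl)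
    · rfl
    · rfl
  have hyR : R (w0 ∘ fs.symm) y := by
    refine ⟨?_, ?_⟩
    · have : (w0 ∘ fs.symm) ∘ fs = w0 := by
        funext i
        simp
      rw [this]
      exact hw0
    · funext i
      simp [w0]
  have hfinal := Pool.Agent.R794.FP.range_subset R ?_ ?_ ?_ ?_ hlfin ⟨_, hyR⟩
  · exact ⟨E c, Finset.mem_image_of_mem _ (List.mem_toFinset.2 hc), hsub y hfinal j⟩
  · rintro x y1 y2 ⟨-, h1⟩ ⟨-, h2⟩
    rw [h1, h2]
  · refine hcount.mono ?_
    rintro y' ⟨u, hu, rfl⟩
    exact himg _ hu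
  · rintro u ⟨_, hu, -⟩
    obtain ⟨e, he, h1⟩ := hop _ hu
    refine ⟨e, he, fun u' hn hu' => ?_⟩
    have h2 : ¬ V (u' ∘ fs) := fun h => hu' ⟨_, h, rfl⟩
    simp only [V] at h2
    push Not at h2
    obtain ⟨l, hl, h3⟩ := h2
    have h0 : l.1 = 0 := by
      by_contra h0
      exact h3 (h1 _ (fun j => (fpnear_iff _ _ _).1 hn (fs j)) l hl h0)
    have h4 : Lit (ValRing p) (Sum.elim (fun i : Fin (B + 1) => v i) (u' ∘ fs))
        (1, MvPolynomial.rename (rr n B) l.2) := by
      simpa [Lit, h0] using h3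
    obtain ⟨δ, hδ, h5⟩ := lit_open hC _ _ h4 (by simp)
    refine ⟨δ, hδ, fun u'' hn' => ?_⟩
    rintro ⟨_, hu'', -⟩
    have h6 := h5 (Sum.elim (fun i : Fin (B + 1) => v i) (u'' ∘ fs)) fun j => by
      rcases j with j | j
      · exact Near.refl _ _
      · exact (fpnear_iff _ _ _).1 hn' (fs j)
    have h7 := hu'' l hl
    simp [Lit, h0] at h6 h7
    exact h6 h7
  · rintro u y' ⟨_, hu, -⟩ hn
    have h1 : y' ≠ fun i => u (fs (.inl i)) := fun h => hn ⟨hu, h⟩
    obtain ⟨i, hi⟩ := Function.ne_iff.1 h1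
    obtain ⟨e, he, h2⟩ := exists_sep (u (fs (.inl i))) {y' i} (Set.finite_singleton _)
    refine ⟨e, he, fun u' hn' => ?_⟩
    rintro ⟨-, h3⟩
    have h4 := (fpnear_iff _ _ _).1 hn' (fs (.inl i))
    rw [← congrFun h3 i] at h4
    exact hi (h2 _ rfl h4)

end Pool.Agent.Helper38.XF
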