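import Pool.Agent.Helper38.XF.Alg1

/-!
Existential formulas over `F_p((t))`: algebraicity.
-/

set_option autoImplicit false

namespace Pool.Agent.Helper38.XF

open Pool.Agent.Y924.EL Function
open Pool.Agent.Results.MP_db9079_lc.UniformFiniteness (ValRing Scattered Discr ClosedSet Dfn)
open Pool.Agent.Results.MP_db9079_lc.LocallyFiniteValues (DRel DSet LFV LFTame Iso)

variable (p : ℕ) [Fact p.Prime]

/-- the subfield of `F_p((t))` generated by `t` -/
noncomputable def Ft : Subfield (LaurentSeries (ZMod p)) := Subfield.closure {HahnSeries.single 1 1}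

theorem ft_eq : Ft p = Subfield.closure {0, 1, HahnSeries.single 1 1} := by
  unfold Ft
  apply le_antisymm
  · exact Subfield.closure_mono (by simp)
  · rw [Subfield.closure_le]
    rintro x (rfl | rfl | rfl)
    · exact zero_mem _
    · exact one_mem _
    · exact Subfield.subset_closure rfl

theorem ft_lam (hG : St_GEN) : LamClosed p (HahnSeries.single 1 1) (Ft p) := by
  have hp : 2 ≤ p := (Fact.out : p.Prime).two_le
  have hp0 : p ≠ 0 := by omega
  rw [ft_eq]
  refine hG p _ _ (Pool.Agent.Helper68.XF.main p) _ (by simp) ?_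
  have key : ∀ (j : Fin p), ∃ c : Fin p → LaurentSeries (ZMod p),
      (∀ i, c i ∈ ({0, 1, HahnSeries.single 1 1} : Set (LaurentSeries (ZMod p)))) ∧
      (HahnSeries.single 1 1 : LaurentSeries (ZMod p)) ^ (j : ℕ) =
        ∑ i, c i ^ p * (HahnSeries.single 1 1) ^ (i : ℕ) := by
    intro j
    classical
    refine ⟨fun i => if i = j then 1 else 0, fun i => ?_, ?_⟩
    · by_cases h : i = j
      · simp [h]
      · simp [h]
    · rw [Finset.sum_eq_single j]
      · simp
      · intro i _ hi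
        simp [hi, hp0]
      · intro h
        exact absurd (Finset.mem_univ _) h
  rintro x (rfl | rfl | rfl)
  · exact ⟨fun _ => 0, fun _ => by simp, by simp [hp0]⟩
  · obtain ⟨c, h1, h2⟩ := key ⟨0, by omega⟩
    exact ⟨c, h1, by rw [← h2]; simp⟩
  · obtain ⟨c, h1, h2⟩ := key ⟨1, by omega⟩
    exact ⟨c, h1, by rw [← h2]; simp⟩

theorem ft_countable : (Ft p : Set (LaurentSeries (ZMod p))).Countable := by
  have h1 := Subfield.cardinalMk_closure_le_max
    ({HahnSeries.single 1 1} : Set (LaurentSeries (ZMod p)))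
  have h2 : Cardinal.mk ({HahnSeries.single 1 1} : Set (LaurentSeries (ZMod p))) ≤
      Cardinal.aleph0 := by
    rw [Cardinal.mk_singleton]
    exact Cardinal.one_le_aleph0
  rw [max_eq_right h2] at h1
  exact Cardinal.le_aleph0_iff_set_countable.1 h1

variable {p}

/-- `a` is a zero of one of the polynomials `Q` at the iterated components of the parameters; this
polynomial is not zero as a polynomial in the last variable. -/
def AlgBy {ι : Type} {k : Subfield (LaurentSeries (ZMod p))}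
    (Qs : Finset (MvPolynomial (Option (ι × List (Fin p))) k)) (v : ι → LaurentSeries (ZMod p))
    (a : LaurentSeries (ZMod p)) : Prop :=
  ∃ Q ∈ Qs, (∃ a' : LaurentSeries (ZMod p),
    MvPolynomial.aeval (asg (Pool.Agent.Helper68.XF.main p) v a') Q ≠ 0) ∧
      MvPolynomial.aeval (asg (Pool.Agent.Helper68.XF.main p) v a) Q = 0

theorem algBy_rename {B : ℕ} {k : Subfield (LaurentSeries (ZMod p))}
    (Qs : Finset (MvPolynomial (Option (Fin (B + 1) × List (Fin p))) k)) :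
    ∃ Qs' : Finset (MvPolynomial (Option (ℕ × List (Fin p))) k),
      ∀ (v : ℕ → LaurentSeries (ZMod p)) (a : LaurentSeries (ZMod p)),
        AlgBy Qs (fun i : Fin (B + 1) => v i) a → AlgBy Qs' v a := by
  classical
  let r : Option (Fin (B + 1) × List (Fin p)) → Option (ℕ × List (Fin p)) :=
    Option.map fun x => ((x.1 : ℕ), x.2)
  have hr : ∀ (v : ℕ → LaurentSeries (ZMod p)) (a : LaurentSeries (ZMod p)),
      asg (Pool.Agent.Helper68.XF.main p) v a ∘ r =
        asg (Pool.Agent.Helper68.XF.main p) (fun i : Fin (B + 1) => v i) a := by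
    intro v a
    funext o
    rcases o with _ | ⟨i, l⟩ <;> rfl
  refine ⟨Qs.image (MvPolynomial.rename r), fun v a => ?_⟩
  rintro ⟨Q, hQ, ⟨a', h1⟩, h2⟩
  refine ⟨_, Finset.mem_image_of_mem _ hQ, ⟨a', ?_⟩, ?_⟩
  · rw [MvPolynomial.aeval_rename, hr]
    exact h1
  · rw [MvPolynomial.aeval_rename, hr]
    exact h2

theorem algBy_union {ι : Type} {k : Subfield (LaurentSeries (ZMod p))} {β : Type} (Es : Finset β)
    (P : β → (ι → LaurentSeries (ZMod p)) → LaurentSeries (ZMod p) → Prop)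
    (h : ∀ E ∈ Es, ∃ Qs : Finset (MvPolynomial (Option (ι × List (Fin p))) k),
      ∀ v a, P E v a → AlgBy Qs v a) :
    ∃ Qs : Finset (MvPolynomial (Option (ι × List (Fin p))) k),
      ∀ v a, (∃ E ∈ Es, P E v a) → AlgBy Qs v a := by
  classical
  choose! Qs hQ using h
  refine ⟨Es.biUnion Qs, fun v a => ?_⟩
  rintro ⟨E, hE, hP⟩
  obtain ⟨Q, hQ1, h2⟩ := hQ E hE v a hP
  exact ⟨Q, Finset.mem_biUnion.2 ⟨E, hE, hQ1⟩, h2⟩

theorem alg_liv (hA : St_ALG2) (hG : St_GEN) (φ : Fm) (hφ : Pol true φ) (n m : ℕ) :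
    ∃ Qs : Finset (MvPolynomial (Option (ℕ × List (Fin p))) (Ft p)),
      ∀ v : ℕ → LaurentSeries (ZMod p), ∀ y ∈ LIV p (DRel p (ValRing p) φ n m v), ∀ j,
        AlgBy Qs v (y j) := by
  classical
  have := laurent_infinite (p := p)
  obtain ⟨B, Es, hI, h1⟩ := liv_sub (p := p) φ hφ n m
  obtain ⟨Qs, hQ⟩ := algBy_union (k := Ft p) (Es ×ˢ (Finset.univ : Finset (Fin m)))
    (fun Ej (v : Fin (B + 1) → LaurentSeries (ZMod p)) a =>
      a ∈ LV (VO p) Ej.1 v (.inl (Fin.natAdd n Ej.2))) (fun Ej hEj => by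
      obtain ⟨Qs, hQs⟩ := hA p _ (VO p) _ (Pool.Agent.Helper68.XF.main p)
        (Pool.Agent.Helper89.XF.HEN.main p (VO p) (mem_VO p)) (Ft p) (ft_lam p hG) (ft_countable p)
        (Fin (B + 1)) (Fin (n + m) ⊕ Fin (B + 1)) Ej.1 (.inl (Fin.natAdd n Ej.2))
        (fun F hF m => (hI _ (Finset.mem_product.1 hEj).1 F hF).coeff_mem _ m)
      exact ⟨Qs, fun v a ha => hQs v a ha⟩)
  obtain ⟨Qs', hQ'⟩ := algBy_rename (p := p) Qs
  refine ⟨Qs', fun v y hy j => hQ' v _ (hQ _ _ ?_)⟩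
  obtain ⟨E, hE, h2⟩ := h1 v y hy j
  exact ⟨(E, j), Finset.mem_product.2 ⟨hE, Finset.mem_univ _⟩, h2⟩

theorem alg_cou (hA : St_ALG2) (hG : St_GEN) (φ : Fm) (hφ : Pol true φ) (n : ℕ) :
    ∃ Qs : Finset (MvPolynomial (Option (ℕ × List (Fin p))) (Ft p)),
      ∀ v : ℕ → LaurentSeries (ZMod p), (DSet p (ValRing p) φ n v).Countable →
        ∀ y ∈ DSet p (ValRing p) φ n v, ∀ j, AlgBy Qs v (y j) := by
  classical
  have := laurent_infinite (p := p)
  obtain ⟨B, Es, hI, h1⟩ := cou_sub (p := p) φ hφ n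
  obtain ⟨Qs, hQ⟩ := algBy_union (k := Ft p) (Es ×ˢ (Finset.univ : Finset (Fin n)))
    (fun Ej (v : Fin (B + 1) → LaurentSeries (ZMod p)) a =>
      a ∈ LV (VO p) Ej.1 v (.inl Ej.2)) (fun Ej hEj => by
      obtain ⟨Qs, hQs⟩ := hA p _ (VO p) _ (Pool.Agent.Helper68.XF.main p)
        (Pool.Agent.Helper89.XF.HEN.main p (VO p) (mem_VO p)) (Ft p) (ft_lam p hG) (ft_countable p)
        (Fin (B + 1)) (Fin n ⊕ Fin (B + 1)) Ej.1 (.inl Ej.2)
        (fun F hF m => (hI _ (Finset.mem_product.1 hEj).1 F hF).coeff_mem _ m)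
      exact ⟨Qs, fun v a ha => hQs v a ha⟩)
  obtain ⟨Qs', hQ'⟩ := algBy_rename (p := p) Qs
  refine ⟨Qs', fun v hc y hy j => hQ' v _ (hQ _ _ ?_)⟩
  obtain ⟨E, hE, h2⟩ := h1 v hc y hy j
  exact ⟨(E, j), Finset.mem_product.2 ⟨hE, Finset.mem_univ _⟩, h2⟩

/-- existentially definable functions -/
theorem alg_fun (hA : St_ALG2) (hG : St_GEN) (φ : Fm) (hφ : Pol true φ) :
    ∃ Qs : Finset (MvPolynomial (Option (ℕ × List (Fin p))) (Ft p)),
      ∀ (v : ℕ → LaurentSeries (ZMod p)) (y : LaurentSeries (ZMod p)),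
        y ∈ Dfn p (ValRing p) φ v → (Dfn p (ValRing p) φ v).Countable → AlgBy Qs v y := by
  obtain ⟨Qs, hQ⟩ := alg_cou (p := p) hA hG φ hφ 1
  refine ⟨Qs, fun v y hy hc => ?_⟩
  have key : ∀ x : Fin 1 → LaurentSeries (ZMod p),
      x ∈ DSet p (ValRing p) φ 1 v ↔ x 0 ∈ Dfn p (ValRing p) φ v := by
    intro x
    simp only [DSet, Dfn, Set.mem_ofPred_eq]
    refine iff_of_eq (congrArg _ (funext fun i => ?_))
    rcases Nat.eq_zero_or_pos i with rfl | hi
    · simp
    · rw [dif_neg (by omega), update_of_ne (by omega)]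
  refine hQ v ?_ (fun _ => y) ((key _).2 hy) 0
  refine (hc.image fun a (_ : Fin 1) => a).mono ?_
  intro x hx
  refine ⟨x 0, (key x).1 hx, funext fun i => ?_⟩
  rw [Subsingleton.elim i 0]

end Pool.Agent.Helper38.XF
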