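import Pool.Agent.Helper38.XF.Tools
import Pool.Agent.Helper38.EQ.Fml

/-!
Existential formulas and systems of polynomial conditions.
-/

set_option autoImplicit false

namespace Pool.Agent.Helper38.XF

open Pool.Agent.Y924.EL Function
open MvPolynomial (X)

/-- `Pol true φ`: the quantifiers of `φ` are in the scope of an even number of negations, so `φ` is
(equivalent to) an existential formula. -/
def Pol : Bool → Fm → Prop
  | _, .eq _ _ => True
  | _, .one _ => True
  | _, .add _ _ _ => True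
  | _, .mul _ _ _ => True
  | _, .val _ => True
  | b, .neg φ => Pol (!b) φ
  | b, .and φ ψ => Pol b φ ∧ Pol b ψ
  | b, .ex _ φ => b = true ∧ Pol b φ

/-- polynomials in the free variables and the witnesses -/
abbrev Po (K : Type) [Field K] : Type := MvPolynomial (ℕ ⊕ ℕ) K

variable {K : Type} [Field K]

/-- the condition of kind `0`, `1`, `2`, `3`: `F = 0`, `F ≠ 0`, `F ∈ O`, `F ∉ O` -/
def Lit {σ : Type} (O : Set K) (x : σ → K) (l : Fin 4 × MvPolynomial σ K) : Prop :=
  if l.1 = 0 then MvPolynomial.eval x l.2 = 0 else if l.1 = 1 then MvPolynomial.eval x l.2 ≠ 0 else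
    if l.1 = 2 then MvPolynomial.eval x l.2 ∈ O else MvPolynomial.eval x l.2 ∉ O

theorem lit_rename {σ τ : Type} (O : Set K) (r : σ → τ) (x : τ → K) (l : Fin 4 × MvPolynomial σ K) :
    Lit O x (l.1, MvPolynomial.rename r l.2) ↔ Lit O (x ∘ r) l := by
  simp only [Lit, MvPolynomial.eval_rename]

/-- the disjunction of conjunctions of conditions -/
def Dj {σ : Type} (O : Set K) (x : σ → K) (D : List (List (Fin 4 × MvPolynomial σ K))) : Prop :=
  ∃ c ∈ D, ∀ l ∈ c, Lit O x l

/-- change of variables -/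
noncomputable def rnD {σ τ : Type} (r : σ → τ) (D : List (List (Fin 4 × MvPolynomial σ K))) :
    List (List (Fin 4 × MvPolynomial τ K)) :=
  D.map fun c => c.map fun l => (l.1, MvPolynomial.rename r l.2)

theorem dj_rnD {σ τ : Type} (O : Set K) (r : σ → τ) (x : τ → K)
    (D : List (List (Fin 4 × MvPolynomial σ K))) : Dj O x (rnD r D) ↔ Dj O (x ∘ r) D := by
  simp only [Dj, rnD, List.mem_map]
  constructor
  · rintro ⟨_, ⟨c, hc, rfl⟩, h⟩
    refine ⟨c, hc, fun l hl => ?_⟩
    rw [← lit_rename]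
    exact h _ (List.mem_map.2 ⟨l, hl, rfl⟩)
  · rintro ⟨c, hc, h⟩
    refine ⟨_, ⟨c, hc, rfl⟩, fun l hl => ?_⟩
    obtain ⟨m, hm, rfl⟩ := List.mem_map.1 hl
    rw [lit_rename]
    exact h m hm

/-- the conjunction -/
def andD {σ : Type} (D D' : List (List (Fin 4 × MvPolynomial σ K))) :
    List (List (Fin 4 × MvPolynomial σ K)) :=
  D.flatMap fun c => D'.map fun c' => c ++ c'

theorem dj_andD {σ : Type} (O : Set K) (x : σ → K) (D D' : List (List (Fin 4 × MvPolynomial σ K))) :
    Dj O x (andD D D') ↔ Dj O x D ∧ Dj O x D' := by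
  simp only [Dj, andD, List.mem_flatMap, List.mem_map]
  constructor
  · rintro ⟨_, ⟨c, hc, c', hc', rfl⟩, h⟩
    exact ⟨⟨c, hc, fun l hl => h l (List.mem_append_left _ hl)⟩,
      ⟨c', hc', fun l hl => h l (List.mem_append_right _ hl)⟩⟩
  · rintro ⟨⟨c, hc, h⟩, ⟨c', hc', h'⟩⟩
    refine ⟨_, ⟨c, hc, c', hc', rfl⟩, fun l hl => ?_⟩
    rcases List.mem_append.1 hl with hl | hl
    · exact h l hl
    · exact h' l hl

theorem dj_append {σ : Type} (O : Set K) (x : σ → K)
    (D D' : List (List (Fin 4 × MvPolynomial σ K))) :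
    Dj O x (D ++ D') ↔ Dj O x D ∨ Dj O x D' := by
  simp only [Dj, List.mem_append]
  constructor
  · rintro ⟨c, hc | hc, h⟩
    · exact .inl ⟨c, hc, h⟩
    · exact .inr ⟨c, hc, h⟩
  · rintro (⟨c, hc, h⟩ | ⟨c, hc, h⟩)
    · exact ⟨c, .inl hc, h⟩
    · exact ⟨c, .inr hc, h⟩

theorem dj_single {σ : Type} (O : Set K) (x : σ → K) (l : Fin 4 × MvPolynomial σ K) :
    Dj O x [[l]] ↔ Lit O x l := by
  simp only [Dj, List.mem_singleton, exists_eq_left, forall_eq]

/-- the list `D` of conjunctions, with witnesses, expresses the formula `φ` or its negation -/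
def Expr (O : Set K) (b : Bool) (φ : Fm) (D : List (List (Fin 4 × Po K))) : Prop :=
  ∀ x : ℕ → K, ((if b then Sat O φ x else ¬ Sat O φ x) ↔ ∃ z : ℕ → K, Dj O (Sum.elim x z) D)

theorem expr_single (O : Set K) (b : Bool) (φ : Fm) (l : Fin 4 × Po K)
    (h : ∀ x z : ℕ → K, (if b then Sat O φ x else ¬ Sat O φ x) ↔ Lit O (Sum.elim x z) l) :
    Expr O b φ [[l]] := by
  intro x
  constructor
  · intro h1
    exact ⟨x, (dj_single _ _ _).2 ((h x x).1 h1)⟩
  · rintro ⟨z, hz⟩
    exact (h x z).2 ((dj_single _ _ _).1 hz)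

theorem expr (O : Set K) (φ : Fm) : ∀ b, Pol b φ → ∃ D, Expr O b φ D := by
  induction φ with
  | eq i j =>
    rintro (_ | _) -
    · refine ⟨_, expr_single O _ _ (1, X (.inl i) - X (.inl j)) fun x z => ?_⟩
      simp [Sat, Lit, sub_eq_zero]
    · refine ⟨_, expr_single O _ _ (0, X (.inl i) - X (.inl j)) fun x z => ?_⟩
      simp [Sat, Lit, sub_eq_zero]
  | one i =>
    rintro (_ | _) -
    · refine ⟨_, expr_single O _ _ (1, X (.inl i) - 1) fun x z => ?_⟩
      simp [Sat, Lit, sub_eq_zero]
    · refine ⟨_, expr_single O _ _ (0, X (.inl i) - 1) fun x z => ?_⟩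
      simp [Sat, Lit, sub_eq_zero]
  | add i j k =>
    rintro (_ | _) -
    · refine ⟨_, expr_single O _ _ (1, X (.inl i) + X (.inl j) - X (.inl k)) fun x z => ?_⟩
      simp [Sat, Lit, sub_eq_zero]
    · refine ⟨_, expr_single O _ _ (0, X (.inl i) + X (.inl j) - X (.inl k)) fun x z => ?_⟩
      simp [Sat, Lit, sub_eq_zero]
  | mul i j k =>
    rintro (_ | _) -
    · refine ⟨_, expr_single O _ _ (1, X (.inl i) * X (.inl j) - X (.inl k)) fun x z => ?_⟩
      simp [Sat, Lit, sub_eq_zero]
    · refine ⟨_, expr_single O _ _ (0, X (.inl i) * X (.inl j) - X (.inl k)) fun x z => ?_⟩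
      simp [Sat, Lit, sub_eq_zero]
  | val i =>
    rintro (_ | _) -
    · refine ⟨_, expr_single O _ _ (3, X (.inl i)) fun x z => ?_⟩
      simp [Sat, Lit]
    · refine ⟨_, expr_single O _ _ (2, X (.inl i)) fun x z => ?_⟩
      simp [Sat, Lit]
  | neg φ ih =>
    intro b hb
    obtain ⟨D, hD⟩ := ih _ hb
    refine ⟨D, fun x => ?_⟩
    rw [← hD x]
    cases b <;> simp [Sat]
  | and φ ψ ih1 ih2 =>
    rintro b ⟨h1, h2⟩
    obtain ⟨D, hD⟩ := ih1 _ h1
    obtain ⟨D', hD'⟩ := ih2 _ h2
    cases b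
    · refine ⟨D ++ D', fun x => ?_⟩
      have e1 := hD x
      have e2 := hD' x
      simp only [Bool.false_eq_true, if_false] at e1 e2 ⊢
      simp only [Sat, not_and_or, e1, e2, dj_append, exists_or]
    · refine ⟨andD (rnD (Sum.map id fun j => 2 * j) D) (rnD (Sum.map id fun j => 2 * j + 1) D'),
        fun x => ?_⟩
      have e1 := hD x
      have e2 := hD' x
      simp only [if_true] at e1 e2 ⊢
      simp only [Sat, e1, e2, dj_andD, dj_rnD]
      constructor
      · rintro ⟨⟨z, hz⟩, ⟨z', hz'⟩⟩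
        refine ⟨fun j => if j % 2 = 0 then z (j / 2) else z' (j / 2), ?_, ?_⟩
        · convert hz using 1
          funext i
          rcases i with i | j
          · rfl
          · simp
        · convert hz' using 1
          funext i
          rcases i with i | j
          · rfl
          · have : (2 * j + 1) / 2 = j := by omega
            simp [this]
      · rintro ⟨z, h, h'⟩
        refine ⟨⟨z ∘ fun j => 2 * j, ?_⟩, ⟨z ∘ fun j => 2 * j + 1, ?_⟩⟩
        · convert h using 1
          funext i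
          rcases i with i | j <;> rfl
        · convert h' using 1
          funext i
          rcases i with i | j <;> rfl
  | ex i φ ih =>
    rintro b ⟨rfl, hb⟩
    obtain ⟨D, hD⟩ := ih _ hb
    let r : ℕ ⊕ ℕ → ℕ ⊕ ℕ := Sum.elim (fun k => if k = i then .inr 0 else .inl k)
      fun j => .inr (j + 1)
    refine ⟨rnD r D, fun x => ?_⟩
    simp only [if_true, Sat, dj_rnD]
    have key : ∀ (a : K) (z : ℕ → K),
        (Sum.elim x (fun j => Nat.casesOn j a z)) ∘ r = Sum.elim (update x i a) z := by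
      intro a z
      funext k
      rcases k with k | j
      · by_cases hk : k = i
        · subst hk
          simp [r]
        · simp [r, hk]
      · simp [r]
    constructor
    · rintro ⟨a, ha⟩
      have e1 := hD (update x i a)
      simp only [if_true] at e1
      obtain ⟨z, hz⟩ := e1.1 ha
      exact ⟨fun j => Nat.casesOn j a z, by rw [key]; exact hz⟩
    · rintro ⟨z, hz⟩
      have e1 := hD (update x i (z 0))
      simp only [if_true] at e1
      refine ⟨z 0, e1.2 ⟨fun j => z (j + 1), ?_⟩⟩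
      rw [← key]
      convert hz using 2
      congr 1
      funext j
      cases j <;> rfl

end Pool.Agent.Helper38.XF
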