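import Pool.Agent.Helper38.XF.DNF
import Pool.Graph.R_seed8.Results.MP_db9079_lc.LocallyFiniteValues

/-!
Existential formulas over `F_p((t))`: from polynomial equations to formulas.
-/

set_option autoImplicit false

namespace Pool.Agent.Helper38.XF

open Pool.Agent.Y924.EL Function
open Pool.Agent.Results.MP_db9079_lc.UniformFiniteness (ValRing Scattered Discr ClosedSet Dfn)
open Pool.Agent.Results.MP_db9079_lc.LocallyFiniteValues (DRel DSet LFV LFTame Iso)

variable (p : ℕ) [Fact p.Prime]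

/-- the valuation ring of the field of Laurent series -/
noncomputable def VO : ValuationSubring (LaurentSeries (ZMod p)) where
  __ := (algebraMap (PowerSeries (ZMod p)) (LaurentSeries (ZMod p))).range
  mem_or_inv_mem' x := by
    rcases ValuationRing.isInteger_or_isInteger (PowerSeries (ZMod p)) x with h | h
    · exact .inl h
    · exact .inr h

theorem mem_VO (x : LaurentSeries (ZMod p)) : x ∈ VO p ↔ ∃ f : PowerSeries (ZMod p),
    algebraMap (PowerSeries (ZMod p)) (LaurentSeries (ZMod p)) f = x := Iff.rfl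

theorem mem_VO' (x : LaurentSeries (ZMod p)) : x ∈ VO p ↔ x ∈ ValRing p := Iff.rfl

/-- The values `y` of the relation `R` at some point `x` which are isolated among the values of `R`
at the points near `x`. -/
def LIV {n m : ℕ} (R : (Fin n → LaurentSeries (ZMod p)) → (Fin m → LaurentSeries (ZMod p)) → Prop) :
    Set (Fin m → LaurentSeries (ZMod p)) :=
  {y | ∃ x, R x y ∧ ∃ b : LaurentSeries (ZMod p), b ≠ 0 ∧ ∀ x' y', R x' y' →
    Pool.Agent.Results.MP_db9079_lc.LocallyFiniteValues.Near p b x x' →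
    Pool.Agent.Results.MP_db9079_lc.LocallyFiniteValues.Near p b y y' → y' = y}

variable {p}

/-- the uniformizer -/
noncomputable abbrev tt : LaurentSeries (ZMod p) := HahnSeries.single 1 1

theorem tt_ne : (tt : LaurentSeries (ZMod p)) ≠ 0 := HahnSeries.single_ne_zero one_ne_zero

theorem one_add_ne {z : LaurentSeries (ZMod p)} (hz : z ∈ VO p) : 1 + tt * z ≠ 0 := by
  obtain ⟨f, rfl⟩ := hz
  intro h
  have h1 := congrArg (fun s : LaurentSeries (ZMod p) => s.coeff 0) h
  have h2 : ((tt : LaurentSeries (ZMod p)) *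
      algebraMap (PowerSeries (ZMod p)) (LaurentSeries (ZMod p)) f).coeff 0 = 0 := by
    have h5 : (0 : ℤ) = (-1) + 1 := by norm_num
    rw [h5, tt, HahnSeries.coeff_single_mul_add, LaurentSeries.coe_algebraMap,
      PowerSeries.coeff_coe, if_pos (by norm_num), mul_zero]
  simp only [HahnSeries.coeff_add, h2, HahnSeries.coeff_zero, add_zero] at h1
  simp at h1

theorem near_iff' (b x y : LaurentSeries (ZMod p)) :
    Near (VO p) b y x ↔ ∃ z ∈ ValRing p, x + b * z = y := by
  constructor
  · rintro ⟨z, hz, h⟩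
    exact ⟨z, hz, by rw [← h]; ring⟩
  · rintro ⟨z, hz, h⟩
    exact ⟨z, hz, by rw [← h]; ring⟩

/-- separation from finitely many points -/
theorem exists_sep (a : LaurentSeries (ZMod p)) (T : Set (LaurentSeries (ZMod p))) (hT : T.Finite) :
    ∃ e : LaurentSeries (ZMod p), e ≠ 0 ∧ ∀ y ∈ T, Near (VO p) e y a → y = a := by
  classical
  obtain ⟨e, he, h⟩ := exists_common (O := VO p) (hT.toFinset.filter fun y => y ≠ a)
    (fun y => tt * (y - a)) fun y hy =>
      mul_ne_zero tt_ne (sub_ne_zero.2 (Finset.mem_filter.1 hy).2)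
  refine ⟨e, he, fun y hy hn => ?_⟩
  by_contra hya
  obtain ⟨z, hz, h1⟩ := h y (Finset.mem_filter.2 ⟨hT.mem_toFinset.2 hy, hya⟩) _ _ hn
  have h2 : (y - a) * (1 + tt * (-z)) = 0 := by linear_combination h1
  rcases mul_eq_zero.1 h2 with h3 | h3
  · exact hya (sub_eq_zero.1 h3)
  · exact one_add_ne (neg_mem hz) h3

/-- the conditions except equations are open -/
theorem lit_open (hC : St_CONT) {σ : Type} [Finite σ] (x : σ → LaurentSeries (ZMod p))
    (l : Fin 4 × MvPolynomial σ (LaurentSeries (ZMod p))) (hl : Lit (ValRing p) x l) (h0 : l.1 ≠ 0) :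
    ∃ δ : LaurentSeries (ZMod p), δ ≠ 0 ∧ ∀ x', (∀ j, Near (VO p) δ (x' j) (x j)) →
      Lit (ValRing p) x' l := by
  obtain ⟨k, F⟩ := l
  simp only at h0
  by_cases h1 : k = 1
  · subst h1
    have hF : MvPolynomial.eval x F ≠ 0 := by simpa [Lit] using hl
    obtain ⟨δ, hδ, h2⟩ := hC _ (VO p) σ F x (tt * MvPolynomial.eval x F) (mul_ne_zero tt_ne hF)
    refine ⟨δ, hδ, fun x' hx' => ?_⟩
    obtain ⟨z, hz, h3⟩ := h2 x' hx'
    have h4 : MvPolynomial.eval x' F = MvPolynomial.eval x F * (1 + tt * z) := by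
      linear_combination h3
    have h5 : MvPolynomial.eval x' F ≠ 0 := by
      rw [h4]
      exact mul_ne_zero hF (one_add_ne hz)
    simpa [Lit] using h5
  · obtain ⟨δ, hδ, h2⟩ := hC _ (VO p) σ F x 1 one_ne_zero
    refine ⟨δ, hδ, fun x' hx' => ?_⟩
    obtain ⟨z, hz, h3⟩ := h2 x' hx'
    rw [one_mul] at h3
    by_cases h4 : k = 2
    · subst h4
      have hF : MvPolynomial.eval x F ∈ VO p := by simpa [Lit] using! hl
      have h5 : MvPolynomial.eval x' F ∈ VO p := by
        have : MvPolynomial.eval x' F = z + MvPolynomial.eval x F := by linear_combination h3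
        rw [this]
        exact add_mem hz hF
      simpa [Lit] using! h5
    · have hF : MvPolynomial.eval x F ∉ VO p := by simpa [Lit, h0, h1, h4] using! hl
      have h5 : MvPolynomial.eval x' F ∉ VO p := by
        intro h6
        apply hF
        have : MvPolynomial.eval x F = MvPolynomial.eval x' F - z := by linear_combination -h3
        rw [this]
        exact sub_mem h6 hz
      simpa [Lit, h0, h1, h4] using! h5

/-- a bound for the indices of the variables -/
theorem exists_bound {K : Type} [Field K] (D : List (List (Fin 4 × Po K))) :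
    ∃ B : ℕ, ∀ c ∈ D, ∀ l ∈ c, ∀ i, (Sum.inl i ∈ l.2.vars ∨ Sum.inr i ∈ l.2.vars) → i ≤ B := by
  induction D with
  | nil => exact ⟨0, by simp⟩
  | cons c D ih =>
    obtain ⟨B, hB⟩ := ih
    have : ∃ B : ℕ, ∀ l ∈ c, ∀ i, (Sum.inl i ∈ l.2.vars ∨ Sum.inr i ∈ l.2.vars) → i ≤ B := by
      clear hB
      induction c with
      | nil => exact ⟨0, by simp⟩
      | cons l c ih =>
        obtain ⟨B, hB⟩ := ih
        have h1 : ∃ B : ℕ, ∀ i, (Sum.inl i ∈ l.2.vars ∨ Sum.inr i ∈ l.2.vars) → i ≤ B := by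
          have hf : {i : ℕ | Sum.inl i ∈ l.2.vars}.Finite :=
            Set.Finite.preimage Sum.inl_injective.injOn l.2.vars.finite_toSet
          have hf' : {i : ℕ | Sum.inr i ∈ l.2.vars}.Finite :=
            Set.Finite.preimage Sum.inr_injective.injOn l.2.vars.finite_toSet
          obtain ⟨B, hB⟩ := (hf.union hf').bddAbove
          exact ⟨B, fun i hi => hB hi⟩
        obtain ⟨B', hB'⟩ := h1
        refine ⟨max B B', fun l' hl' i hi => ?_⟩
        rcases List.mem_cons.1 hl' with rfl | hl'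
        · exact (hB' i hi).trans (le_max_right _ _)
        · exact (hB l' hl' i hi).trans (le_max_left _ _)
    obtain ⟨B', hB'⟩ := this
    refine ⟨max B B', fun c' hc' l hl i hi => ?_⟩
    rcases List.mem_cons.1 hc' with rfl | hc'
    · exact (hB' l hl i hi).trans (le_max_right _ _)
    · exact (hB c' hc' l hl i hi).trans (le_max_left _ _)

/-- the change of variables -/
def rr (N B : ℕ) : ℕ ⊕ ℕ → Fin (B + 1) ⊕ (Fin N ⊕ Fin (B + 1)) :=
  Sum.elim (fun i => if h : i < N then .inr (.inl ⟨i, h⟩) else .inl ⟨min i B, by omega⟩)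
    fun j => .inr (.inr ⟨min j B, by omega⟩)

theorem lit_rr {K : Type} [Field K] (O : Set K) (N B : ℕ) (l : Fin 4 × Po K)
    (hl : ∀ i, (Sum.inl i ∈ l.2.vars ∨ Sum.inr i ∈ l.2.vars) → i ≤ B) (v x z : ℕ → K)
    (w : Fin N ⊕ Fin (B + 1) → K)
    (hx : ∀ i ≤ B, x i = if h : i < N then w (.inl ⟨i, h⟩) else v i)
    (hz : ∀ j (hj : j ≤ B), z j = w (.inr ⟨j, by omega⟩)) :
    Lit O (Sum.elim (fun i : Fin (B + 1) => v i) w) (l.1, MvPolynomial.rename (rr N B) l.2) ↔
      Lit O (Sum.elim x z) l := by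
  have key : MvPolynomial.eval (Sum.elim (fun i : Fin (B + 1) => v i) w)
      (MvPolynomial.rename (rr N B) l.2) = MvPolynomial.eval (Sum.elim x z) l.2 := by
    rw [MvPolynomial.eval_rename]
    refine MvPolynomial.hom_congr_vars (by ext; simp) (fun i hi _ => ?_) rfl
    rcases i with i | j
    · have h1 := hl i (.inl hi)
      simp only [MvPolynomial.eval_X, comp, rr, Sum.elim_inl]
      rw [hx i h1]
      split_ifs with h
      · simp
      · simp [min_eq_left h1]
    · have h1 := hl j (.inr hi)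
      simp only [MvPolynomial.eval_X, comp, rr, Sum.elim_inr]
      rw [hz j h1]
      simp [min_eq_left h1]
  simp only [Lit, key]

theorem ncard_list {α β : Type} (D : List β) (A : β → Set α) (M : β → ℕ)
    (h : ∀ c ∈ D, (A c).Finite ∧ (A c).ncard ≤ M c) :
    {a | ∃ c ∈ D, a ∈ A c}.Finite ∧ {a | ∃ c ∈ D, a ∈ A c}.ncard ≤ (D.map M).sum := by
  induction D with
  | nil => simp
  | cons c D ih =>
    have e1 : {a | ∃ c' ∈ c :: D, a ∈ A c'} = A c ∪ {a | ∃ c ∈ D, a ∈ A c} := by
      ext a
      simp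
    have h1 := ih fun c' hc' => h c' (List.mem_cons_of_mem _ hc')
    have h2 := h c List.mem_cons_self
    rw [e1, List.map_cons, List.sum_cons]
    exact ⟨h2.1.union h1.1, (Set.ncard_union_le _ _).trans (add_le_add h2.2 h1.2)⟩

theorem ncard_pi {α : Type} {m : ℕ} (S : Set (Fin m → α)) (A : Fin m → Set α) (M : Fin m → ℕ)
    (h : ∀ j, (A j).Finite ∧ (A j).ncard ≤ M j) (hS : ∀ y ∈ S, ∀ j, y j ∈ A j) :
    S.Finite ∧ S.ncard ≤ ∏ j, M j := by
  classical
  have h1 : S ⊆ (Fintype.piFinset fun j => (h j).1.toFinset : Finset (Fin m → α)) := by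
    intro y hy
    rw [Finset.mem_coe, Fintype.mem_piFinset]
    exact fun j => (h j).1.mem_toFinset.2 (hS y hy j)
  refine ⟨(Finset.finite_toSet _).subset h1, (Set.ncard_le_ncard h1 (Finset.finite_toSet _)).trans ?_⟩
  rw [Set.ncard_coe_finset, Fintype.card_piFinset]
  refine Finset.prod_le_prod' fun j _ => ?_
  rw [← Set.ncard_eq_toFinset_card _ (h j).1]
  exact (h j).2

end Pool.Agent.Helper38.XF
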