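import Pool.Agent.Helper38.XF.Fin

/-!
Existential formulas over `F_p((t))`: uniform finiteness.
-/

set_option autoImplicit false

namespace Pool.Agent.Helper38.XF

open Pool.Agent.Y924.EL Function
open Pool.Agent.Results.MP_db9079_lc.UniformFiniteness (ValRing Scattered Discr ClosedSet Dfn)
open Pool.Agent.Results.MP_db9079_lc.LocallyFiniteValues (DRel DSet LFV LFTame Iso)

variable {p : ℕ} [Fact p.Prime]

theorem liv_finite (hC : St_CONT) (hM : St_MAIN) (hH : St_HEN) (hB : St_PB) (φ : Fm)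
    (hφ : Pol true φ) (n m : ℕ) : ∃ N : ℕ, ∀ v : ℕ → LaurentSeries (ZMod p),
      (LIV p (DRel p (ValRing p) φ n m v)).Finite ∧
        (LIV p (DRel p (ValRing p) φ n m v)).ncard ≤ N := by
  classical
  obtain ⟨D, hD⟩ := expr (ValRing p) φ true hφ
  obtain ⟨B, hB'⟩ := exists_bound D
  have : Infinite (LaurentSeries (ZMod p)) := by
    refine Infinite.of_injective (fun k : ℕ => (HahnSeries.single (k : ℤ) (1 : ZMod p) :
      LaurentSeries (ZMod p))) fun a b hab => ?_
    have h1 := congrArg (fun s : LaurentSeries (ZMod p) => s.coeff (a : ℤ)) hab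
    simp only [HahnSeries.coeff_single_same, HahnSeries.coeff_single] at h1
    by_contra hne
    rw [if_neg (by exact_mod_cast hne)] at h1
    exact one_ne_zero h1
  let E : List (Fin 4 × Po (LaurentSeries (ZMod p))) →
      Finset (MvPolynomial (Fin (B + 1) ⊕ (Fin (n + m) ⊕ Fin (B + 1))) (LaurentSeries (ZMod p))) :=
    fun c => ((c.filter fun l => l.1 = 0).map fun l =>
      MvPolynomial.rename (rr (n + m) B) l.2).toFinset
  have hE : ∀ c, ∀ l ∈ c, l.1 = 0 → MvPolynomial.rename (rr (n + m) B) l.2 ∈ E c := by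
    intro c l hl h0
    simp only [E, List.mem_toFinset, List.mem_map, List.mem_filter, decide_eq_true_eq]
    exact ⟨l, ⟨hl, h0⟩, rfl⟩
  have hE' : ∀ c, ∀ F ∈ E c, ∃ l ∈ c, l.1 = 0 ∧ MvPolynomial.rename (rr (n + m) B) l.2 = F := by
    intro c F hF
    simp only [E, List.mem_toFinset, List.mem_map, List.mem_filter, decide_eq_true_eq] at hF
    obtain ⟨l, ⟨h1, h2⟩, h3⟩ := hF
    exact ⟨l, h1, h2, h3⟩
  choose M hM using fun (c : List (Fin 4 × Po (LaurentSeries (ZMod p)))) (j : Fin m) =>
    hM p (LaurentSeries (ZMod p)) (VO p) (HahnSeries.single 1 1) (hH p (VO p) (mem_VO p)) (hB p)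
      (Fin (B + 1)) (Fin (n + m) ⊕ Fin (B + 1)) (E c) (.inl (Fin.natAdd n j))
  refine ⟨∏ j, (D.map fun c => M c j).sum, fun v => ?_⟩
  refine ncard_pi _ (fun j => {a | ∃ c ∈ D,
    a ∈ LV (VO p) (E c) (fun i : Fin (B + 1) => v i) (.inl (Fin.natAdd n j))}) _
    (fun j => ncard_list D _ _ fun c _ => hM c j _) ?_
  rintro y ⟨x, hxy, b, hb, hloc⟩ j
  -- the point
  have h1 := (hD (fun i => if h : i < n then x ⟨i, h⟩ else
    if h' : i - n < m then y ⟨i - n, h'⟩ else v i)).1 hxy
  obtain ⟨z, c, hc, hz⟩ := h1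
  let w : Fin (n + m) ⊕ Fin (B + 1) → LaurentSeries (ZMod p) :=
    Sum.elim (fun i => if h : (i : ℕ) < n then x ⟨i, h⟩ else
      if h' : (i : ℕ) - n < m then y ⟨i - n, h'⟩ else 0) fun j => z j
  -- the translation at a point `w'`
  let x' : (Fin (n + m) ⊕ Fin (B + 1) → LaurentSeries (ZMod p)) → Fin n → LaurentSeries (ZMod p) :=
    fun w' i => w' (.inl (Fin.castAdd m i))
  let y' : (Fin (n + m) ⊕ Fin (B + 1) → LaurentSeries (ZMod p)) → Fin m → LaurentSeries (ZMod p) :=
    fun w' i => w' (.inl (Fin.natAdd n i))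
  have hasg : ∀ w' : Fin (n + m) ⊕ Fin (B + 1) → LaurentSeries (ZMod p),
      (fun i : ℕ => if h : i < n + m then w' (.inl ⟨i, h⟩) else v i) =
      fun i => if h : i < n then x' w' ⟨i, h⟩ else
        if h' : i - n < m then y' w' ⟨i - n, h'⟩ else v i := by
    intro w'
    funext i
    by_cases h : i < n
    · rw [dif_pos h, dif_pos (by omega)]
      rfl
    · rw [dif_neg h]
      by_cases h' : i - n < m
      · rw [dif_pos h', dif_pos (by omega)]
        simp only [y']
        congr 2
        ext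
        simp only [Fin.natAdd_mk]
        omega
      · rw [dif_neg h', dif_neg (by omega)]
  have htr : ∀ w' : Fin (n + m) ⊕ Fin (B + 1) → LaurentSeries (ZMod p),
      (∀ l ∈ c, Lit (ValRing p) (Sum.elim (fun i : Fin (B + 1) => v i) w')
        (l.1, MvPolynomial.rename (rr (n + m) B) l.2)) →
      DRel p (ValRing p) φ n m v (x' w') (y' w') := by
    intro w' hw'
    refine (hD _).2 ⟨fun j : ℕ => w' (.inr ⟨min j B, by omega⟩), c, hc, fun l hl => ?_⟩
    refine (lit_rr (ValRing p) (n + m) B l (hB' c hc l hl) v _ _ w' (fun i _ => ?_)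
      fun j hj => ?_).1 (hw' l hl)
    · exact (congrFun (hasg w') i).symm
    · simp only [min_eq_left hj]
  have hxw : x' w = x := by
    funext i
    simp only [x', w, Sum.elim_inl, Fin.val_castAdd, i.2, dif_pos]
  have hyw : y' w = y := by
    funext i
    have h2 : ¬ (n + (i : ℕ) < n) := by omega
    have h3 : n + (i : ℕ) - n < m := by have := i.2; omega
    simp only [y', w, Sum.elim_inl, Fin.val_natAdd, h2, dif_neg, not_false_eq_true, h3, dif_pos]
    congr 1
    ext
    simp
  -- the conditions hold at the point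
  have hlw : ∀ l ∈ c, Lit (ValRing p) (Sum.elim (fun i : Fin (B + 1) => v i) w)
      (l.1, MvPolynomial.rename (rr (n + m) B) l.2) := by
    intro l hl
    refine (lit_rr (ValRing p) (n + m) B l (hB' c hc l hl) v _ _ w (fun i _ => ?_)
      fun j hj => ?_).2 (hz l hl)
    · have h2 := congrFun (hasg w) i
      rw [h2, hxw, hyw]
    · simp only [w, Sum.elim_inr]
  -- open conditions
  have hop : ∀ l : Fin 4 × Po (LaurentSeries (ZMod p)), ∃ δ : LaurentSeries (ZMod p), δ ≠ 0 ∧
      (l ∈ c → l.1 ≠ 0 → ∀ w', (∀ j, Near (VO p) δ (w' j) (w j)) →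
        Lit (ValRing p) (Sum.elim (fun i : Fin (B + 1) => v i) w')
          (l.1, MvPolynomial.rename (rr (n + m) B) l.2)) := by
    intro l
    by_cases h : l ∈ c ∧ l.1 ≠ 0
    · obtain ⟨δ, hδ, h2⟩ := lit_open hC (Sum.elim (fun i : Fin (B + 1) => v i) w)
        (l.1, MvPolynomial.rename (rr (n + m) B) l.2) (hlw l h.1) h.2
      refine ⟨δ, hδ, fun _ _ w' hw' => h2 _ fun j => ?_⟩
      rcases j with j | j
      · exact Near.refl _ _
      · exact hw' j
    · exact ⟨1, one_ne_zero, fun h3 h4 => absurd ⟨h3, h4⟩ h⟩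
  choose δ hδ hδ' using hop
  obtain ⟨e, he, hcom⟩ := exists_common (O := VO p) (insert b (c.toFinset.image δ)) id
    (fun d hd => by
      rcases Finset.mem_insert.1 hd with rfl | hd
      · exact hb
      · obtain ⟨l, -, rfl⟩ := Finset.mem_image.1 hd
        exact hδ l)
  refine ⟨c, hc, w, congrFun hyw j, fun F hF => ?_, e, he, fun w' hw' hn => ?_⟩
  · obtain ⟨l, hl, h0, rfl⟩ := hE' c F hF
    have h2 := hlw l hl
    simpa [Lit, h0] using h2
  · have h2 : DRel p (ValRing p) φ n m v (x' w') (y' w') := by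
      refine htr w' fun l hl => ?_
      by_cases h0 : l.1 = 0
      · have h3 := hw' _ (hE c l hl h0)
        simpa [Lit, h0] using h3
      · exact hδ' l hl h0 w' fun j => hcom (δ l) (Finset.mem_insert_of_mem
          (Finset.mem_image_of_mem _ (List.mem_toFinset.2 hl))) _ _ (hn j)
    have h3 := hloc (x' w') (y' w') h2 (fun i => (near_iff' _ _ _).1 ?_)
      (fun i => (near_iff' _ _ _).1 ?_)
    · exact congrFun h3 j
    · rw [← hxw]
      exact hcom b (Finset.mem_insert_self _ _) _ _ (hn _)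
    · rw [← hyw]
      exact hcom b (Finset.mem_insert_self _ _) _ _ (hn _)

end Pool.Agent.Helper38.XF
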