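import Pool.Agent.Helper38.XF.Fin2

/-!
Existential formulas over `F_p((t))`: countable sets.
-/

set_option autoImplicit false

namespace Pool.Agent.Helper38.XF

open Pool.Agent.Y924.EL Function
open Pool.Agent.Results.MP_db9079_lc.UniformFiniteness (ValRing Scattered Discr ClosedSet Dfn)
open Pool.Agent.Results.MP_db9079_lc.LocallyFiniteValues (DRel DSet LFV LFTame Iso)

variable {p : ℕ} [Fact p.Prime]

theorem laurent_infinite : Infinite (LaurentSeries (ZMod p)) := by
  refine Infinite.of_injective (fun k : ℕ => (HahnSeries.single (k : ℤ) (1 : ZMod p) :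
    LaurentSeries (ZMod p))) fun a b hab => ?_
  have h1 := congrArg (fun s : LaurentSeries (ZMod p) => s.coeff (a : ℤ)) hab
  simp only [HahnSeries.coeff_single_same, HahnSeries.coeff_single] at h1
  by_contra hne
  rw [if_neg (by exact_mod_cast hne)] at h1
  exact one_ne_zero h1

theorem fpnear_iff {n : ℕ} (b : LaurentSeries (ZMod p)) (x x' : Fin n → LaurentSeries (ZMod p)) :
    Pool.Agent.R794.FP.Near b x x' ↔ ∀ i, Near (VO p) b (x' i) (x i) := by
  unfold Pool.Agent.R794.FP.Near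
  refine forall_congr' fun i => ?_
  constructor
  · rintro ⟨z, hz, h⟩
    exact ⟨z, hz, by rw [← h]; ring⟩
  · rintro ⟨z, hz, h⟩
    exact ⟨z, hz, by rw [← h]; ring⟩

theorem countable_finite (hC : St_CONT) (hM : St_MAIN) (hH : St_HEN) (hB : St_PB) (φ : Fm)
    (hφ : Pol true φ) (n : ℕ) : ∃ N : ℕ, ∀ v : ℕ → LaurentSeries (ZMod p),
      (DSet p (ValRing p) φ n v).Countable → (DSet p (ValRing p) φ n v).Finite ∧
        (DSet p (ValRing p) φ n v).ncard ≤ N := by
  classical
  obtain ⟨D, hD⟩ := expr (ValRing p) φ true hφ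
  obtain ⟨B, hB'⟩ := exists_bound D
  have := laurent_infinite (p := p)
  let E : List (Fin 4 × Po (LaurentSeries (ZMod p))) →
      Finset (MvPolynomial (Fin (B + 1) ⊕ (Fin n ⊕ Fin (B + 1))) (LaurentSeries (ZMod p))) :=
    fun c => ((c.filter fun l => l.1 = 0).map fun l =>
      MvPolynomial.rename (rr n B) l.2).toFinset
  have hE : ∀ c, ∀ l ∈ c, l.1 = 0 → MvPolynomial.rename (rr n B) l.2 ∈ E c := by
    intro c l hl h0
    simp only [E, List.mem_toFinset, List.mem_map, List.mem_filter, decide_eq_true_eq]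
    exact ⟨l, ⟨hl, h0⟩, rfl⟩
  have hE' : ∀ c, ∀ F ∈ E c, ∃ l ∈ c, l.1 = 0 ∧ MvPolynomial.rename (rr n B) l.2 = F := by
    intro c F hF
    simp only [E, List.mem_toFinset, List.mem_map, List.mem_filter, decide_eq_true_eq] at hF
    obtain ⟨l, ⟨h1, h2⟩, h3⟩ := hF
    exact ⟨l, h1, h2, h3⟩
  choose M hM using fun (c : List (Fin 4 × Po (LaurentSeries (ZMod p)))) (j : Fin n) =>
    hM p (LaurentSeries (ZMod p)) (VO p) (HahnSeries.single 1 1) (hH p (VO p) (mem_VO p)) (hB p)
      (Fin (B + 1)) (Fin n ⊕ Fin (B + 1)) (E c) (.inl j)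
  refine ⟨∏ j, (D.map fun c => M c j).sum, fun v hcount => ?_⟩
  refine ncard_pi _ (fun j => {a | ∃ c ∈ D,
    a ∈ LV (VO p) (E c) (fun i : Fin (B + 1) => v i) (.inl j)}) _
    (fun j => ncard_list D _ _ fun c _ => hM c j _) ?_
  intro y hy j
  obtain ⟨z, c, hc, hz⟩ := (hD _).1 hy
  -- the conditions
  let V : (Fin n ⊕ Fin (B + 1) → LaurentSeries (ZMod p)) → Prop := fun w' =>
    ∀ l ∈ c, Lit (ValRing p) (Sum.elim (fun i : Fin (B + 1) => v i) w')
      (l.1, MvPolynomial.rename (rr n B) l.2)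
  let fs : Fin n ⊕ Fin (B + 1) ≃ Fin (n + (B + 1)) := finSumFinEquiv
  let R : (Fin (n + (B + 1)) → LaurentSeries (ZMod p)) → (Fin n → LaurentSeries (ZMod p)) → Prop :=
    fun u y' => V (u ∘ fs) ∧ y' = fun i => u (fs (.inl i))
  have himg : ∀ w', V w' → (fun i => w' (.inl i)) ∈ DSet p (ValRing p) φ n v := by
    intro w' hw'
    refine (hD _).2 ⟨fun j : ℕ => w' (.inr ⟨min j B, by omega⟩), c, hc, fun l hl => ?_⟩
    refine (lit_rr (ValRing p) n B l (hB' c hc l hl) v _ _ w' (fun i _ => rfl)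
      fun j hj => ?_).1 (hw' l hl)
    simp only [min_eq_left hj]
  -- the open conditions
  have hop : ∀ w : Fin n ⊕ Fin (B + 1) → LaurentSeries (ZMod p), V w →
      ∃ e : LaurentSeries (ZMod p), e ≠ 0 ∧ ∀ w', (∀ j, Near (VO p) e (w' j) (w j)) →
        ∀ l ∈ c, l.1 ≠ 0 → Lit (ValRing p) (Sum.elim (fun i : Fin (B + 1) => v i) w')
          (l.1, MvPolynomial.rename (rr n B) l.2) := by
    intro w hw
    have hop : ∀ l : Fin 4 × Po (LaurentSeries (ZMod p)), ∃ δ : LaurentSeries (ZMod p), δ ≠ 0 ∧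
        (l ∈ c → l.1 ≠ 0 → ∀ w', (∀ j, Near (VO p) δ (w' j) (w j)) →
          Lit (ValRing p) (Sum.elim (fun i : Fin (B + 1) => v i) w')
            (l.1, MvPolynomial.rename (rr n B) l.2)) := by
      intro l
      by_cases h : l ∈ c ∧ l.1 ≠ 0
      · obtain ⟨δ, hδ, h2⟩ := lit_open hC (Sum.elim (fun i : Fin (B + 1) => v i) w)
          (l.1, MvPolynomial.rename (rr n B) l.2) (hw l h.1) h.2
        refine ⟨δ, hδ, fun _ _ w' hw' => h2 _ fun j => ?_⟩
        rcases j with j | j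
        · exact Near.refl _ _
        · exact hw' j
      · exact ⟨1, one_ne_zero, fun h3 h4 => absurd ⟨h3, h4⟩ h⟩
    choose δ hδ hδ' using hop
    obtain ⟨e, he, hcom⟩ := exists_common (O := VO p) (c.toFinset.image δ) id
      (fun d hd => by
        obtain ⟨l, -, rfl⟩ := Finset.mem_image.1 hd
        exact hδ l)
    exact ⟨e, he, fun w' hw' l hl h0 => hδ' l hl h0 w' fun j => hcom (δ l)
      (Finset.mem_image_of_mem _ (List.mem_toFinset.2 hl)) _ _ (hw' j)⟩
  -- locally constant values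
  have hsub : ∀ y' ∈ Pool.Agent.R794.FP.LCVn R, ∀ j : Fin n,
      y' j ∈ LV (VO p) (E c) (fun i : Fin (B + 1) => v i) (.inl j) := by
    rintro y' ⟨u, ⟨hV, hy'⟩, b, hb, h⟩ j
    obtain ⟨e, he, h1⟩ := hop _ hV
    obtain ⟨e', he', hcom⟩ := exists_common (O := VO p) {b, e} id (fun d hd => by
      rcases Finset.mem_insert.1 hd with rfl | hd
      · exact hb
      · rw [Finset.mem_singleton.1 hd]
        exact he)
    refine ⟨u ∘ fs, (congrFun hy' j).symm, fun F hF => ?_, e', he', fun w' hw' hn => ?_⟩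
    · obtain ⟨l, hl, h0, rfl⟩ := hE' c F hF
      have h2 := hV l hl
      simpa [Lit, h0] using h2
    · have h2 : V w' := by
        intro l hl
        by_cases h0 : l.1 = 0
        · have h3 := hw' _ (hE c l hl h0)
          simpa [Lit, h0] using h3
        · exact h1 w' (fun j => hcom e (by simp) _ _ (hn j)) l hl h0
      have h3 := h (w' ∘ fs.symm) (fun i => w' (.inl i)) ⟨?_, ?_⟩
        ((fpnear_iff _ _ _).2 fun i => ?_)
      · exact congrFun h3 j
      · have : (w' ∘ fs.symm) ∘ fs = w' := by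
          funext i
          simp
        rw [this]
        exact h2
      · funext i
        simp
      · have h4 := hcom b (by simp) _ _ (hn (fs.symm i))
        simpa using h4
  have hlfin : (Pool.Agent.R794.FP.LCVn R).Finite :=
    (ncard_pi _ _ _ (fun j => hM c j fun i => v i) hsub).1
  -- Baire
  let w0 : Fin n ⊕ Fin (B + 1) → LaurentSeries (ZMod p) := Sum.elim y fun j => z j
  have hw0 : V w0 := by
    intro l hl
    refine (lit_rr (ValRing p) n B l (hB' c hc l hl) v _ _ w0 (fun i _ => ?_)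
      fun j hj => ?_).2 (hz l hl)
    · rfl
    · rfl
  have hyR : R (w0 ∘ fs.symm) y := by
    refine ⟨?_, ?_⟩
    · have : (w0 ∘ fs.symm) ∘ fs = w0 := by
        funext i
        simp
      rw [this]
      exact hw0
    · funext i
      simp [w0]
  have hfinal := Pool.Agent.R794.FP.range_subset R ?_ ?_ ?_ ?_ hlfin ⟨_, hyR⟩
  · exact ⟨c, hc, hsub y hfinal j⟩
  · rintro x y1 y2 ⟨-, h1⟩ ⟨-, h2⟩
    rw [h1, h2]
  · refine hcount.mono ?_
    rintro y' ⟨u, hu, rfl⟩
    exact himg _ hu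
  · rintro u ⟨_, hu, -⟩
    obtain ⟨e, he, h1⟩ := hop _ hu
    refine ⟨e, he, fun u' hn hu' => ?_⟩
    have h2 : ¬ V (u' ∘ fs) := fun h => hu' ⟨_, h, rfl⟩
    simp only [V] at h2
    push Not at h2
    obtain ⟨l, hl, h3⟩ := h2
    have h0 : l.1 = 0 := by
      by_contra h0
      exact h3 (h1 _ (fun j => (fpnear_iff _ _ _).1 hn (fs j)) l hl h0)
    have h4 : Lit (ValRing p) (Sum.elim (fun i : Fin (B + 1) => v i) (u' ∘ fs))
        (1, MvPolynomial.rename (rr n B) l.2) := by
      simpa [Lit, h0] using h3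
    obtain ⟨δ, hδ, h5⟩ := lit_open hC _ _ h4 (by simp)
    refine ⟨δ, hδ, fun u'' hn' => ?_⟩
    rintro ⟨_, hu'', -⟩
    have h6 := h5 (Sum.elim (fun i : Fin (B + 1) => v i) (u'' ∘ fs)) fun j => by
      rcases j with j | j
      · exact Near.refl _ _
      · exact (fpnear_iff _ _ _).1 hn' (fs j)
    have h7 := hu'' l hl
    simp [Lit, h0] at h6 h7
    exact h6 h7
  · rintro u y' ⟨_, hu, -⟩ hn
    have h1 : y' ≠ fun i => u (fs (.inl i)) := fun h => hn ⟨hu, h⟩
    obtain ⟨i, hi⟩ := Function.ne_iff.1 h1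
    obtain ⟨e, he, h2⟩ := exists_sep (u (fs (.inl i))) {y' i} (Set.finite_singleton _)
    refine ⟨e, he, fun u' hn' => ?_⟩
    rintro ⟨-, h3⟩
    have h4 := (fpnear_iff _ _ _).1 hn' (fs (.inl i))
    rw [← congrFun h3 i] at h4
    exact hi (h2 _ rfl h4)

end Pool.Agent.Helper38.XF
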