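import Pool.Agent.Helper38.XF.Fin3
import Pool.Agent.Helper15.XF.BAD
import Pool.Agent.Helper15.XF.MANY
import Pool.Agent.Helper86.XF.CLO
import Pool.Agent.Helper85.XF.CONT
import Pool.Agent.Helper89.XF.HEN
import Pool.Agent.Helper71.XF.MAIN
import Pool.Agent.Helper90.XF.ONE
import Pool.Agent.Helper68.XF.PB
import Pool.Agent.Helper88.XF.POW
import Pool.Agent.Helper67.XF.PRIM
import Pool.Agent.Helper78.XF.RAT
import Pool.Agent.Helper79.XF.SEP
import Pool.Agent.Helper6.XF.ULT
import Pool.Agent.Helper39.XF.MOVE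

/-!
Existential formulas over `F_p((t))`: assembly and consequences.
-/

set_option autoImplicit false

namespace Pool.Agent.Helper38.XF

open Pool.Agent.Y924.EL Function
open Pool.Agent.Helper38.EQ (exs sat_exs)
open Pool.Agent.Results.MP_db9079_lc.UniformFiniteness (ValRing Scattered Discr ClosedSet Dfn)
open Pool.Agent.Results.MP_db9079_lc.LocallyFiniteValues (DRel DSet LFV LFTame Iso Img LocConst)

theorem t_MAIN : St_MAIN :=
  Pool.Agent.Helper71.XF.MAIN.main
    (Pool.Agent.Helper39.XF.MOVE.main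
      (Pool.Agent.Helper79.XF.SEP.main Pool.Agent.Helper88.XF.POW.main)
      (Pool.Agent.Helper90.XF.ONE.main Pool.Agent.Helper78.XF.RAT.main
        Pool.Agent.Helper67.XF.PRIM.main Pool.Agent.Helper85.XF.CONT.main
        Pool.Agent.Helper15.XF.BAD.main Pool.Agent.Helper15.XF.MANY.main))
    Pool.Agent.Helper86.XF.CLO.main Pool.Agent.Helper6.XF.ULT.main

variable (p : ℕ) [Fact p.Prime]

theorem liv (φ : Fm) (hφ : Pol true φ) (n m : ℕ) : ∃ N : ℕ,
    ∀ v : ℕ → LaurentSeries (ZMod p), (LIV p (DRel p (ValRing p) φ n m v)).Finite ∧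
      (LIV p (DRel p (ValRing p) φ n m v)).ncard ≤ N :=
  liv_finite Pool.Agent.Helper85.XF.CONT.main t_MAIN Pool.Agent.Helper89.XF.HEN.main
    Pool.Agent.Helper68.XF.main φ hφ n m

theorem cou (φ : Fm) (hφ : Pol true φ) (n : ℕ) : ∃ N : ℕ,
    ∀ v : ℕ → LaurentSeries (ZMod p), (DSet p (ValRing p) φ n v).Countable →
      (DSet p (ValRing p) φ n v).Finite ∧ (DSet p (ValRing p) φ n v).ncard ≤ N :=
  countable_finite Pool.Agent.Helper85.XF.CONT.main t_MAIN Pool.Agent.Helper89.XF.HEN.main
    Pool.Agent.Helper68.XF.main φ hφ n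

variable {p}

theorem nearL_iff {n : ℕ} (b : LaurentSeries (ZMod p)) (x x' : Fin n → LaurentSeries (ZMod p)) :
    Pool.Agent.Results.MP_db9079_lc.LocallyFiniteValues.Near p b x x' ↔
      ∀ i, Near (VO p) b (x' i) (x i) :=
  forall_congr' fun _ => (near_iff' _ _ _).symm

theorem lfv_subset {n m : ℕ}
    (R : (Fin n → LaurentSeries (ZMod p)) → (Fin m → LaurentSeries (ZMod p)) → Prop) :
    LFV p R ⊆ LIV p R := by
  classical
  rintro y ⟨x, hxy, b, hb, hfin⟩
  refine ⟨x, hxy, ?_⟩
  choose e he h using fun j : Fin m => exists_sep (y j) _ (hfin.image fun y' => y' j)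
  obtain ⟨d, hd, hcom⟩ := exists_common (O := VO p) (insert b (Finset.univ.image e)) id
    (fun d hd => by
      rcases Finset.mem_insert.1 hd with rfl | hd
      · exact hb
      · obtain ⟨l, -, rfl⟩ := Finset.mem_image.1 hd
        exact he l)
  refine ⟨d, hd, fun x' y' h1 h2 h3 => funext fun j => ?_⟩
  rw [nearL_iff] at h2 h3
  refine h j (y' j) ⟨y', ⟨x', h1, (nearL_iff _ _ _).2 fun i => ?_⟩, rfl⟩ ?_
  · exact hcom b (Finset.mem_insert_self _ _) _ _ (h2 i)
  · exact hcom (e j) (Finset.mem_insert_of_mem (Finset.mem_image_of_mem _ (Finset.mem_univ j))) _ _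
      (h3 j)

theorem drel_zero (P : Set (LaurentSeries (ZMod p))) (φ : Fm) (n : ℕ)
    (v : ℕ → LaurentSeries (ZMod p)) (x : Fin 0 → LaurentSeries (ZMod p))
    (y : Fin n → LaurentSeries (ZMod p)) : DRel p P φ 0 n v x y ↔ y ∈ DSet p P φ n v := by
  unfold DRel DSet
  simp

theorem iso_subset (P : Set (LaurentSeries (ZMod p))) (φ : Fm) (n : ℕ)
    (v : ℕ → LaurentSeries (ZMod p)) : Iso p (DSet p P φ n v) ⊆ LIV p (DRel p P φ 0 n v) := by
  rintro y ⟨hy, b, hb, h⟩
  refine ⟨Fin.elim0, (drel_zero P φ n v _ y).2 hy, b, hb, fun x' y' h1 _ h3 => ?_⟩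
  exact h y' ((drel_zero P φ n v _ y').1 h1) h3

theorem pol_exs (φ : Fm) (hφ : Pol true φ) : ∀ l : List ℕ, Pol true (exs l φ)
  | [] => hφ
  | _ :: l => ⟨rfl, pol_exs φ hφ l⟩

theorem pol_ren (σ : ℕ → ℕ) (φ : Fm) : ∀ b, Pol b φ → Pol b (Pool.Agent.Y924.UF.ren σ φ) := by
  induction φ with
  | eq i j => exact fun _ _ => trivial
  | one i => exact fun _ _ => trivial
  | add i j k => exact fun _ _ => trivial
  | mul i j k => exact fun _ _ => trivial
  | val i => exact fun _ _ => trivial
  | neg φ ih => exact fun b hb => ih (!b) hb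
  | and φ ψ ih1 ih2 => exact fun b hb => ⟨ih1 b hb.1, ih2 b hb.2⟩
  | ex i φ ih => exact fun b hb => ⟨hb.1, ih b hb.2⟩

/-- the image of a definable relation -/
theorem img_dset (P : Set (LaurentSeries (ZMod p))) (φ : Fm) (n m : ℕ) :
    ∃ ψ : Fm, (Pol true φ → Pol true ψ) ∧ ∀ v : ℕ → LaurentSeries (ZMod p),
      DSet p P ψ m v = Img p (DRel p P φ n m v) := by
  let σ : ℕ → ℕ := fun i => if i < n then m + i else if i < n + m then i - n else i
  have hσ : Injective σ := by
    intro i j h
    simp only [σ] at h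
    split_ifs at h <;> omega
  refine ⟨Pool.Agent.Y924.UF.ren σ (exs (List.range n) φ),
    fun h => pol_ren σ _ _ (pol_exs φ h _), fun v => ?_⟩
  ext y
  unfold DSet Img DRel
  simp only [Set.mem_ofPred_eq]
  rw [Pool.Agent.Y410.UF.sat_ren P hσ, sat_exs]
  constructor
  · rintro ⟨v', h1, h2⟩
    refine ⟨fun i => v' i, ?_⟩
    convert h2 using 1
    funext i
    by_cases h : i < n
    · rw [dif_pos h]
    · rw [dif_neg h, h1 i (by simpa using h)]
      by_cases h' : i - n < m
      · have h3 : σ i = i - n := by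
          simp only [σ]
          rw [if_neg h, if_pos (by omega)]
        simp only [comp, h3, dif_pos h']
      · have h3 : σ i = i := by
          simp only [σ]
          rw [if_neg h, if_neg (by omega)]
        have h4 : ¬ i < m := by omega
        simp only [comp, h3, dif_neg h', dif_neg h4]
  · rintro ⟨x, hx⟩
    refine ⟨_, fun i hi => ?_, hx⟩
    have h : ¬ i < n := by simpa using hi
    rw [dif_neg h]
    by_cases h' : i - n < m
    · have h3 : σ i = i - n := by
        simp only [σ]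
        rw [if_neg h, if_pos (by omega)]
      simp only [comp, h3, dif_pos h']
    · have h3 : σ i = i := by
        simp only [σ]
        rw [if_neg h, if_neg (by omega)]
      have h4 : ¬ i < m := by omega
      simp only [comp, h3, dif_neg h', dif_neg h4]

end Pool.Agent.Helper38.XF
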