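import Mathlib

/-!
Existential formulas over `F_p((t))`: statements of the parts.
-/

set_option autoImplicit false

namespace Pool.Agent.Helper38.XF

open Polynomial

/-- `x - y` is in `e O` -/
def Near {L : Type} [Field L] (O : ValuationSubring L) (e x y : L) : Prop :=
  ∃ z ∈ O, x - y = e * z

/-- The simple zeros of polynomials depend continuously on the coefficients. -/
def Hens {L : Type} [Field L] (O : ValuationSubring L) : Prop :=
  ∀ (d : ℕ) (c : ℕ → L) (a e : L), e ≠ 0 → ∑ i ∈ Finset.range (d + 1), c i * a ^ i = 0 →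
    ∑ i ∈ Finset.range (d + 1), (i : L) * c i * a ^ (i - 1) ≠ 0 →
    ∃ δ : L, δ ≠ 0 ∧ ∀ c' : ℕ → L, (∀ i ≤ d, Near O δ (c' i) (c i)) →
      ∃ a', Near O e a' a ∧ ∑ i ∈ Finset.range (d + 1), c' i * a' ^ i = 0

/-- The element `t` is a `p`-basis: every element is a unique combination `∑ c i ^ p * t ^ i`. -/
def PBas (p : ℕ) (L : Type) [Field L] (t : L) : Prop :=
  (∀ z : L, ∃ c : Fin p → L, z = ∑ i, c i ^ p * t ^ (i : ℕ)) ∧
    ∀ c : Fin p → L, ∑ i, c i ^ p * t ^ (i : ℕ) = 0 → ∀ i, c i = 0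

/-- `k` contains the `p`-components of its elements. -/
def LamClosed (p : ℕ) {L : Type} [Field L] (t : L) (k : Subfield L) : Prop :=
  t ∈ k ∧ ∀ c : Fin p → L, ∑ i, c i ^ p * t ^ (i : ℕ) ∈ k → ∀ i, c i ∈ k

/-- `k` is relatively algebraically closed in `L`. -/
def AlgClosedIn {L : Type} [Field L] (k : Subfield L) : Prop :=
  ∀ x : L, IsAlgebraic k x → x ∈ k

/-- POW: `p`-th powers of linearly independent elements are linearly independent (in the form of
`exists_isTranscendenceBasis_and_isSeparable_of_linearIndepOn_pow_of_essFiniteType`). -/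
def St_POW : Prop :=
  ∀ (p : ℕ) [Fact p.Prime] (L : Type) [Field L] [CharP L p] (t : L) (k : Subfield L),
    PBas p L t → LamClosed p t k → ∀ (E : IntermediateField k L) (s : Finset E),
      LinearIndepOn k _root_.id (s : Set E) → LinearIndepOn k (· ^ p) (s : Set E)

/-- SEP (from POW): reduction to one variable. -/
def St_SEP : Prop :=
  ∀ (p : ℕ) [Fact p.Prime] (L : Type) [Field L] [CharP L p] (t : L) (k : Subfield L),
    PBas p L t → LamClosed p t k → AlgClosedIn k →
    ∀ (κ : Type) [Finite κ] (w : κ → L) (b : κ), w b ∉ k →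
    ∃ (k' : Subfield L) (s : L), k ≤ k' ∧ AlgClosedIn k' ∧ w b ∉ k' ∧ s ∉ k' ∧
      ∀ j, IsSeparable (IntermediateField.adjoin k' {s}) (w j)

/-- RAT: substitution in rational functions. -/
def St_RAT : Prop :=
  ∀ (L : Type) [Field L] (O : ValuationSubring L) (k : Subfield L), AlgClosedIn k →
    (∀ s : L, s ∉ k → ∃ φ : RatFunc k →ₐ[k] L, φ RatFunc.X = s) ∧
    ∀ (s : L) (φ : RatFunc k →ₐ[k] L), φ RatFunc.X = s → ∀ (c : RatFunc k) (e : L), e ≠ 0 →
      ∃ δ : L, δ ≠ 0 ∧ ∀ (u : L) (ψ : RatFunc k →ₐ[k] L), ψ RatFunc.X = u → Near O δ u s →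
        Near O e (ψ c) (φ c)

/-- PRIM: a primitive element. -/
def St_PRIM : Prop :=
  ∀ (L : Type) [Field L] (k : Subfield L) (s : L) (φ : RatFunc k →ₐ[k] L),
    φ RatFunc.X = s → ∀ (κ : Type) [Finite κ] (w : κ → L),
    (∀ j, IsSeparable (IntermediateField.adjoin k {s}) (w j)) →
    ∃ (g : (RatFunc k)[X]) (α : L) (c : κ → (RatFunc k)[X]),
      eval₂ (φ : RatFunc k →+* L) α g = 0 ∧
      eval₂ (φ : RatFunc k →+* L) α (derivative g) ≠ 0 ∧
      (∀ j, w j = eval₂ (φ : RatFunc k →+* L) α (c j)) ∧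
      ∀ f : (RatFunc k)[X], eval₂ (φ : RatFunc k →+* L) α f = 0 → g ∣ f

/-- CONT: continuity of polynomials. -/
def St_CONT : Prop :=
  ∀ (L : Type) [Field L] (O : ValuationSubring L) (σ : Type) [Finite σ] (F : MvPolynomial σ L)
    (w : σ → L) (e : L), e ≠ 0 → ∃ δ : L, δ ≠ 0 ∧ ∀ w' : σ → L, (∀ j, Near O δ (w' j) (w j)) →
      Near O e (MvPolynomial.eval w' F) (MvPolynomial.eval w F)

/-- BAD: if `y` is not in `k` then only finitely many specialisations of `s` have the same `y`. -/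
def St_BAD : Prop :=
  ∀ (L : Type) [Field L] (k : Subfield L), AlgClosedIn k → ∀ (y : L), y ∉ k →
    ∀ m : (RatFunc k)[X], m ≠ 0 →
    {u : L | ∃ ψ : RatFunc k →ₐ[k] L, ψ RatFunc.X = u ∧
      eval₂ (ψ : RatFunc k →+* L) y m = 0}.Finite

/-- MANY: many elements near `s` are not in `k`. -/
def St_MANY : Prop :=
  ∀ (L : Type) [Field L] [Infinite L] (O : ValuationSubring L) (k : Subfield L) (s : L), s ∉ k →
    ∀ δ : L, δ ≠ 0 → {u : L | Near O δ u s ∧ u ∉ k}.Infinite

/-- ONE (from RAT PRIM CONT BAD MANY): the case of one variable. -/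
def St_ONE : Prop :=
  ∀ (L : Type) [Field L] [Infinite L] (O : ValuationSubring L), Hens O →
    ∀ (k : Subfield L), AlgClosedIn k → ∀ (s : L), s ∉ k →
    ∀ (κ : Type) [Finite κ] (w : κ → L) (b : κ), w b ∉ k →
    (∀ j, IsSeparable (IntermediateField.adjoin k {s}) (w j)) →
    ∀ e : L, e ≠ 0 → ∃ w' : κ → L, (∀ j, Near O e (w' j) (w j)) ∧ w' b ≠ w b ∧
      ∀ F : MvPolynomial κ k, MvPolynomial.aeval w F = 0 → MvPolynomial.aeval w' F = 0

/-- MOVE (from SEP ONE): points which are not defined over `k` can be moved. -/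
def St_MOVE : Prop :=
  ∀ (p : ℕ) [Fact p.Prime] (L : Type) [Field L] [CharP L p] [Infinite L]
    (O : ValuationSubring L) (t : L) (k : Subfield L), Hens O → PBas p L t → LamClosed p t k →
    AlgClosedIn k → ∀ (κ : Type) [Finite κ] (w : κ → L) (b : κ), w b ∉ k →
    ∀ e : L, e ≠ 0 → ∃ w' : κ → L, (∀ j, Near O e (w' j) (w j)) ∧ w' b ≠ w b ∧
      ∀ F : MvPolynomial κ k, MvPolynomial.aeval w F = 0 → MvPolynomial.aeval w' F = 0

/-- CLO: countable subfields. -/
def St_CLO : Prop :=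
  ∀ (p : ℕ) [Fact p.Prime] (L : Type) [Field L] [CharP L p] (t : L), PBas p L t →
    ∀ C : Set L, C.Countable → ∃ k : Subfield L, C ⊆ k ∧ (k : Set L).Countable ∧
      LamClosed p t k ∧ AlgClosedIn k

/-- The ultrapower. -/
abbrev UP (K : Type) : Type := Filter.Germ (Filter.hyperfilter ℕ : Filter ℕ) K

/-- ULT: properties of the ultrapower. -/
def St_ULT : Prop :=
  ∀ (p : ℕ) [Fact p.Prime] (K : Type) [Field K] [CharP K p] (O : ValuationSubring K) (t : K),
    Hens O → PBas p K t → CharP (UP K) p ∧ PBas p (UP K) (t : UP K) ∧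
      ∃ O' : ValuationSubring (UP K), Hens O' ∧
        ∀ f : ℕ → K, (f : UP K) ∈ O' ↔ ∀ᶠ n in (Filter.hyperfilter ℕ : Filter ℕ), f n ∈ O

/-- The values of the coordinate `b` at the points of the algebraic set with the equations `E` and
the parameters `v` near which this coordinate is constant. -/
def LV {K : Type} [Field K] (O : ValuationSubring K) {ι κ : Type}
    (E : Finset (MvPolynomial (ι ⊕ κ) K)) (v : ι → K) (b : κ) : Set K :=
  {a | ∃ w : κ → K, w b = a ∧ (∀ F ∈ E, MvPolynomial.eval (Sum.elim v w) F = 0) ∧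
    ∃ e : K, e ≠ 0 ∧ ∀ w' : κ → K, (∀ F ∈ E, MvPolynomial.eval (Sum.elim v w') F = 0) →
      (∀ j, Near O e (w' j) (w j)) → w' b = a}

/-- MAIN (from MOVE CLO ULT): the sets of the locally constant values are uniformly finite. -/
def St_MAIN : Prop :=
  ∀ (p : ℕ) [Fact p.Prime] (K : Type) [Field K] [CharP K p] [Infinite K] (O : ValuationSubring K)
    (t : K), Hens O → PBas p K t →
    ∀ (ι κ : Type) [Finite ι] [Finite κ] (E : Finset (MvPolynomial (ι ⊕ κ) K)) (b : κ),
      ∃ M : ℕ, ∀ v : ι → K, (LV O E v b).Finite ∧ (LV O E v b).ncard ≤ M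

/-- HEN: the field of Laurent series. -/
def St_HEN : Prop :=
  ∀ (p : ℕ) [Fact p.Prime] (O : ValuationSubring (LaurentSeries (ZMod p))),
    (∀ x, x ∈ O ↔ ∃ f : PowerSeries (ZMod p),
      algebraMap (PowerSeries (ZMod p)) (LaurentSeries (ZMod p)) f = x) → Hens O

/-- PB: the `p`-basis of the field of Laurent series. -/
def St_PB : Prop :=
  ∀ (p : ℕ) [Fact p.Prime], PBas p (LaurentSeries (ZMod p)) (HahnSeries.single 1 1)

end Pool.Agent.Helper38.XF
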