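import Pool.Agent.Helper38.XF.Spec

/-!
Elementary facts about the relation `Near`.
-/

set_option autoImplicit false

namespace Pool.Agent.Helper38.XF

variable {L : Type} [Field L] {O : ValuationSubring L}

theorem Near.refl (e x : L) : Near O e x x := ⟨0, O.zero_mem, by simp⟩

theorem Near.symm {e x y : L} (h : Near O e x y) : Near O e y x := by
  obtain ⟨z, hz, h⟩ := h
  exact ⟨-z, O.neg_mem _ hz, by rw [mul_neg, ← h]; ring⟩

theorem Near.trans {e x y z : L} (h : Near O e x y) (h' : Near O e y z) : Near O e x z := by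
  obtain ⟨a, ha, h⟩ := h
  obtain ⟨b, hb, h'⟩ := h'
  exact ⟨a + b, O.add_mem _ _ ha hb, by rw [mul_add, ← h, ← h']; ring⟩

theorem Near.add {e x y x' y' : L} (h : Near O e x y) (h' : Near O e x' y') :
    Near O e (x + x') (y + y') := by
  obtain ⟨a, ha, h⟩ := h
  obtain ⟨b, hb, h'⟩ := h'
  exact ⟨a + b, O.add_mem _ _ ha hb, by rw [mul_add, ← h, ← h']; ring⟩

theorem Near.sum {e : L} {ι : Type} (s : Finset ι) {x y : ι → L} (h : ∀ i ∈ s, Near O e (x i) (y i)) :
    Near O e (∑ i ∈ s, x i) (∑ i ∈ s, y i) := by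
  classical
  induction s using Finset.induction_on with
  | empty => simpa using Near.refl e 0
  | insert a s ha ih =>
    rw [Finset.sum_insert ha, Finset.sum_insert ha]
    exact (h a (Finset.mem_insert_self _ _)).add (ih fun i hi => h i (Finset.mem_insert_of_mem hi))

theorem Near.mono {e e' x y : L} (he : ∃ z ∈ O, e = e' * z) (h : Near O e x y) :
    Near O e' x y := by
  obtain ⟨a, ha, h⟩ := h
  obtain ⟨z, hz, rfl⟩ := he
  exact ⟨z * a, O.mul_mem _ _ hz ha, by rw [h, mul_assoc]⟩

theorem dvd_total {e e' : L} (he' : e' ≠ 0) (he : e ≠ 0) :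
    (∃ z ∈ O, e = e' * z) ∨ ∃ z ∈ O, e' = e * z := by
  rcases O.mem_or_inv_mem (e / e') with h | h
  · exact .inl ⟨_, h, by field_simp⟩
  · exact .inr ⟨_, h, by field_simp⟩

/-- a common bound -/
theorem exists_common {ι : Type} (s : Finset ι) (δ : ι → L) (h : ∀ i ∈ s, δ i ≠ 0) :
    ∃ δ' : L, δ' ≠ 0 ∧ ∀ i ∈ s, ∀ x y, Near O δ' x y → Near O (δ i) x y := by
  classical
  induction s using Finset.induction_on with
  | empty => exact ⟨1, one_ne_zero, by simp⟩
  | insert a s ha ih =>
    obtain ⟨d, hd, h1⟩ := ih fun i hi => h i (Finset.mem_insert_of_mem hi)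
    have h2 := h a (Finset.mem_insert_self _ _)
    rcases dvd_total (O := O) h2 hd with h3 | h3
    · refine ⟨d, hd, fun i hi x y hxy => ?_⟩
      rcases Finset.mem_insert.1 hi with rfl | hi
      · exact hxy.mono h3
      · exact h1 i hi x y hxy
    · refine ⟨δ a, h2, fun i hi x y hxy => ?_⟩
      rcases Finset.mem_insert.1 hi with rfl | hi
      · exact hxy
      · exact h1 i hi x y (hxy.mono h3)

/-- multiplication by a constant -/
theorem Near.mul_left {e x y : L} (c : L) (h : Near O e x y) : Near O (c * e) (c * x) (c * y) := by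
  obtain ⟨a, ha, h⟩ := h
  exact ⟨a, ha, by rw [mul_assoc, ← h]; ring⟩

theorem Near.mul_mem {e x y c : L} (hc : c ∈ O) (h : Near O e x y) : Near O e (c * x) (c * y) := by
  obtain ⟨a, ha, h⟩ := h
  exact ⟨c * a, O.mul_mem _ _ hc ha, by rw [mul_left_comm, ← h]; ring⟩

end Pool.Agent.Helper38.XF
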